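import Pool.Agent.PPF.Gsa
import Pool.Agent.PPW.Eul

/-!
# PPF/Gsm: the sum over the contents (difficulty 4)

`cf G = G1 ^ (-2/15) * G ^ (-29/30)`.
PROOF of `gsm`.  Apply `PPW.eul` to `f n = if n = 0 then 0 else K ^ ω(n) * cf n` (multiplicative on coprime nonzero arguments:
`g1_mul`, `Nat.Coprime.card_primeFactors_mul` or disjointness, `Real.mul_rpow`; `f 1 = 1`) with
`b l = if 5 ≤ l then 3 K * l ^ (-11/10) else 4 K`.
For a prime `l ≥ 5`: `f l = K l ^ (-2/15 - 29/30) = K l ^ (-11/10)` and `f (l ^ e) = K (l ^ (-29/30)) ^ e` for `e ≥ 2`; with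
`q = l ^ (-29/30) ≤ 5 ^ (-29/30) ≤ 1/4` (`4 ^ 30 ≤ 5 ^ 29`), `∑_{e ≥ 2} q ^ e = q ^ 2 / (1 - q) ≤ 2 q ^ 2 = 2 l ^ (-29/15) ≤ 2 l ^ (-11/10)`,
so the sum over `1 ≤ e ≤ E` is at most `3 K l ^ (-11/10)`.
For `l = 2, 3`: `f (l ^ e) = K q ^ e`, `q ≤ 2 ^ (-29/30) ≤ 3/5` (`5 ^ 30 ≤ 2 ^ 29 * 3 ^ 30`), sum at most `K q / (1 - q) ≤ 4 K`.
Then `∏ (1 + b l) ≤ (1 + 4 K) ^ 2 * ∏_{5 ≤ l ≤ N} (1 + 3 K l ^ (-11/10)) ≤ (1 + 4 K) ^ 2 exp (3 K ∑ n ^ (-11/10))`
(`Real.add_one_le_exp`), and `∑ n ^ (-11/10)` converges (`Real.summable_nat_rpow`); the primes below 5 are 2 and 3.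
-/

set_option autoImplicit false

namespace Pool.Agent.PPF

open Finset

private noncomputable def gsmf (K : ℝ) (n : ℕ) : ℝ :=
  if n = 0 then 0 else K ^ n.primeFactors.card * cf n

private theorem gsm_cf_nonneg (n : ℕ) : 0 ≤ cf n := by
  unfold cf
  positivity

private theorem gsmf_nonneg (K : ℝ) (hK : 1 ≤ K) (n : ℕ) : 0 ≤ gsmf K n := by
  have h0 : 0 ≤ K := by linarith
  unfold gsmf
  split_ifs
  · exact le_refl _
  · exact mul_nonneg (pow_nonneg h0 _) (gsm_cf_nonneg n)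

private theorem gsmf_one (K : ℝ) : gsmf K 1 = 1 := by
  have h1 := g1_le 1 (le_refl _)
  have h2 : PPW.G1 1 = 1 := le_antisymm h1.2 h1.1
  unfold gsmf cf
  rw [if_neg one_ne_zero, h2]
  simp

private theorem gsmf_mul (K : ℝ) (m n : ℕ) (hm : m ≠ 0) (hn : n ≠ 0) (h : Nat.Coprime m n) :
    gsmf K (m * n) = gsmf K m * gsmf K n := by
  unfold gsmf
  rw [if_neg hm, if_neg hn, if_neg (mul_ne_zero hm hn)]
  have h1 : (m * n).primeFactors.card = m.primeFactors.card + n.primeFactors.card := by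
    rw [h.primeFactors_mul, Finset.card_union_of_disjoint h.disjoint_primeFactors]
  have h2 : cf (m * n) = cf m * cf n := by
    unfold cf
    rw [g1_mul m n hm hn h]
    push_cast
    rw [Real.mul_rpow (by positivity) (by positivity), Real.mul_rpow (by positivity) (by positivity)]
    ring
  rw [h1, h2, pow_add]
  ring

private theorem gsmf_pp (K : ℝ) (l e : ℕ) (hl : l.Prime) (he : 1 ≤ e) :
    gsmf K (l ^ e) = K * ((if 5 ≤ l ∧ e = 1 then (l : ℝ) ^ (-(2 / 15) : ℝ) else 1) *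
      ((l : ℝ) ^ (-(29 / 30) : ℝ)) ^ e) := by
  have hl0 : (0 : ℝ) ≤ (l : ℝ) := by positivity
  unfold gsmf cf
  rw [if_neg (pow_ne_zero _ hl.ne_zero), g1_pp l e hl he,
    Nat.primeFactors_prime_pow (by omega) hl, Finset.card_singleton, pow_one]
  congr 2
  · split_ifs
    · rfl
    · simp
  · push_cast
    rw [← Real.rpow_natCast, ← Real.rpow_natCast, ← Real.rpow_mul hl0, ← Real.rpow_mul hl0]
    congr 1
    ring

private theorem gsm_q (l : ℕ) (c : ℝ) (hc : 0 < c) (m : ℕ) (hm : 1 ≤ m) (hl : m ≤ l)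
    (h : 1 ≤ c ^ 30 * (m : ℝ) ^ 29) : (l : ℝ) ^ (-(29 / 30) : ℝ) ≤ c := by
  have hm0 : (0 : ℝ) < m := by exact_mod_cast hm
  have hl0 : (0 : ℝ) < l := by
    have : (m : ℝ) ≤ l := by exact_mod_cast hl
    linarith
  have h1 : ((l : ℝ) ^ (-(29 / 30) : ℝ)) ^ 30 * (l : ℝ) ^ 29 = 1 := by
    rw [← Real.rpow_natCast, ← Real.rpow_mul hl0.le, ← Real.rpow_natCast, ← Real.rpow_add hl0]
    norm_num
  have h2 : (m : ℝ) ^ 29 ≤ (l : ℝ) ^ 29 := by gcongr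
  have h3 : ((l : ℝ) ^ (-(29 / 30) : ℝ)) ^ 30 ≤ c ^ 30 := by
    have h4 : ((l : ℝ) ^ (-(29 / 30) : ℝ)) ^ 30 * (m : ℝ) ^ 29 ≤ c ^ 30 * (m : ℝ) ^ 29 := by
      calc ((l : ℝ) ^ (-(29 / 30) : ℝ)) ^ 30 * (m : ℝ) ^ 29
          ≤ ((l : ℝ) ^ (-(29 / 30) : ℝ)) ^ 30 * (l : ℝ) ^ 29 := by gcongr
        _ = 1 := h1
        _ ≤ _ := h
    exact le_of_mul_le_mul_right h4 (by positivity)
  exact le_of_pow_le_pow_left₀ (by norm_num) hc.le h3

private theorem gsm_small (K q : ℝ) (hK : 1 ≤ K) (hq0 : 0 ≤ q) (hq : q ≤ 3 / 5) (E : ℕ) :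
    ∑ e ∈ Icc 1 E, K * q ^ e ≤ K * (5 / 2 * (q - q ^ (E + 1))) := by
  induction E with
  | zero => simp
  | succ E ih =>
    rw [Finset.sum_Icc_succ_top (by omega)]
    have h1 : 0 ≤ q ^ (E + 1) := by positivity
    have h2 : q ^ (E + 1 + 1) = q ^ (E + 1) * q := pow_succ _ _
    have h3 : q ^ (E + 1) * q ≤ q ^ (E + 1) * (3 / 5) := mul_le_mul_of_nonneg_left hq h1
    have h4 : K * q ^ (E + 1) ≤ K * (5 / 2 * (q ^ (E + 1) - q ^ (E + 1 + 1))) := by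
      apply mul_le_mul_of_nonneg_left _ (by linarith)
      rw [h2]
      linarith
    calc ∑ e ∈ Icc 1 E, K * q ^ e + K * q ^ (E + 1) ≤
        K * (5 / 2 * (q - q ^ (E + 1))) + K * (5 / 2 * (q ^ (E + 1) - q ^ (E + 1 + 1))) :=
          add_le_add ih h4
      _ = K * (5 / 2 * (q - q ^ (E + 1 + 1))) := by ring

private theorem gsm_large (K q r : ℝ) (hK : 1 ≤ K) (hq0 : 0 ≤ q) (hq : q ≤ 1 / 2) (E : ℕ) :
    ∑ e ∈ Icc 1 (E + 1), K * ((if e = 1 then r else 1) * q ^ e) ≤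
      K * (r * q + 2 * (q ^ 2 - q ^ (E + 2))) := by
  induction E with
  | zero => simp
  | succ E ih =>
    rw [Finset.sum_Icc_succ_top (by omega)]
    have h1 : 0 ≤ q ^ (E + 2) := by positivity
    have h2 : q ^ (E + 1 + 2) = q ^ (E + 2) * q := by rw [← pow_succ]
    have h3 : q ^ (E + 2) * q ≤ q ^ (E + 2) * (1 / 2) := mul_le_mul_of_nonneg_left hq h1
    have h4 : K * ((if E + 1 + 1 = 1 then r else 1) * q ^ (E + 1 + 1)) ≤
        K * (2 * (q ^ (E + 2) - q ^ (E + 1 + 2))) := by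
      apply mul_le_mul_of_nonneg_left _ (by linarith)
      rw [if_neg (by omega), h2]
      linarith
    calc ∑ e ∈ Icc 1 (E + 1), K * ((if e = 1 then r else 1) * q ^ e) +
        K * ((if E + 1 + 1 = 1 then r else 1) * q ^ (E + 1 + 1)) ≤
        K * (r * q + 2 * (q ^ 2 - q ^ (E + 2))) + K * (2 * (q ^ (E + 2) - q ^ (E + 1 + 2))) :=
          add_le_add ih h4
      _ = K * (r * q + 2 * (q ^ 2 - q ^ (E + 1 + 2))) := by ring

private noncomputable def gsmb (K : ℝ) (l : ℕ) : ℝ :=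
  if 5 ≤ l then 3 * K * (l : ℝ) ^ (-(11 / 10) : ℝ) else 4 * K

private theorem gsmb_nonneg (K : ℝ) (hK : 1 ≤ K) (l : ℕ) : 0 ≤ gsmb K l := by
  unfold gsmb
  split_ifs
  · positivity
  · linarith

private theorem gsm_b (K : ℝ) (hK : 1 ≤ K) (l : ℕ) (hl : l.Prime) (E : ℕ) :
    ∑ e ∈ Icc 1 E, gsmf K (l ^ e) ≤ gsmb K l := by
  have hl0 : (0 : ℝ) < l := by exact_mod_cast hl.pos
  have hl1 : (1 : ℝ) ≤ l := by exact_mod_cast hl.one_lt.le
  have hq0 : 0 ≤ (l : ℝ) ^ (-(29 / 30) : ℝ) := by positivity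
  have e0 : ∑ e ∈ Icc 1 E, gsmf K (l ^ e) = ∑ e ∈ Icc 1 E,
      K * ((if 5 ≤ l ∧ e = 1 then (l : ℝ) ^ (-(2 / 15) : ℝ) else 1) *
      ((l : ℝ) ^ (-(29 / 30) : ℝ)) ^ e) := by
    apply Finset.sum_congr rfl
    intro e he
    exact gsmf_pp K l e hl (Finset.mem_Icc.1 he).1
  rw [e0]
  by_cases h5 : 5 ≤ l
  · unfold gsmb
    rw [if_pos h5]
    simp only [h5, true_and]
    rcases E with _ | E
    · simp
      positivity
    · have hq : (l : ℝ) ^ (-(29 / 30) : ℝ) ≤ 1 / 2 :=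
        gsm_q l (1 / 2) (by norm_num) 5 (by norm_num) h5 (by norm_num)
      refine le_trans (gsm_large K _ _ hK hq0 hq E) ?_
      have h1 : (l : ℝ) ^ (-(2 / 15) : ℝ) * (l : ℝ) ^ (-(29 / 30) : ℝ) =
          (l : ℝ) ^ (-(11 / 10) : ℝ) := by
        rw [← Real.rpow_add hl0]
        norm_num
      have h2 : ((l : ℝ) ^ (-(29 / 30) : ℝ)) ^ 2 ≤ (l : ℝ) ^ (-(11 / 10) : ℝ) := by
        rw [← Real.rpow_natCast, ← Real.rpow_mul hl0.le]
        apply Real.rpow_le_rpow_of_exponent_le hl1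
        norm_num
      have h3 : 0 ≤ ((l : ℝ) ^ (-(29 / 30) : ℝ)) ^ (E + 2) := by positivity
      rw [h1]
      calc K * ((l : ℝ) ^ (-(11 / 10) : ℝ) + 2 * (((l : ℝ) ^ (-(29 / 30) : ℝ)) ^ 2 -
          ((l : ℝ) ^ (-(29 / 30) : ℝ)) ^ (E + 2))) ≤
          K * (3 * (l : ℝ) ^ (-(11 / 10) : ℝ)) := by
            apply mul_le_mul_of_nonneg_left _ (by linarith)
            linarith
        _ = 3 * K * (l : ℝ) ^ (-(11 / 10) : ℝ) := by ring
  · unfold gsmb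
    rw [if_neg h5]
    simp only [h5, false_and, if_false, one_mul]
    have hq : (l : ℝ) ^ (-(29 / 30) : ℝ) ≤ 3 / 5 :=
      gsm_q l (3 / 5) (by norm_num) 2 (by norm_num) hl.two_le (by norm_num)
    refine le_trans (gsm_small K _ hK hq0 hq E) ?_
    have h3 : 0 ≤ ((l : ℝ) ^ (-(29 / 30) : ℝ)) ^ (E + 1) := by positivity
    calc K * (5 / 2 * ((l : ℝ) ^ (-(29 / 30) : ℝ) - ((l : ℝ) ^ (-(29 / 30) : ℝ)) ^ (E + 1))) ≤
        K * 4 := by
          apply mul_le_mul_of_nonneg_left _ (by linarith)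
          linarith
      _ = 4 * K := by ring

private theorem gsm_sumb (K : ℝ) (hK : 1 ≤ K) (N : ℕ) :
    ∑ l ∈ (Icc 1 N).filter Nat.Prime, gsmb K l ≤
      16 * K + 3 * K * ∑' n : ℕ, (n : ℝ) ^ (-(11 / 10) : ℝ) := by
  have hs : Summable (fun n : ℕ => (n : ℝ) ^ (-(11 / 10) : ℝ)) := by
    rw [Real.summable_nat_rpow]
    norm_num
  have h1 : ∀ l : ℕ, gsmb K l ≤ (if l < 5 then 4 * K else 0) +
      3 * K * (l : ℝ) ^ (-(11 / 10) : ℝ) := by
    intro l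
    have h2 : 0 ≤ 3 * K * (l : ℝ) ^ (-(11 / 10) : ℝ) := by positivity
    unfold gsmb
    by_cases h5 : 5 ≤ l
    · rw [if_pos h5, if_neg (by omega)]
      linarith
    · rw [if_neg h5, if_pos (by omega)]
      linarith
  have h2 : ∑ l ∈ Icc 1 N, (if l < 5 then 4 * K else 0) ≤ 16 * K := by
    rw [← Finset.sum_filter, Finset.sum_const, nsmul_eq_mul]
    have h3 : ((Icc 1 N).filter (fun l => l < 5)).card ≤ 4 := by
      have : (Icc 1 N).filter (fun l => l < 5) ⊆ Icc 1 4 := by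
        intro x hx
        rw [Finset.mem_filter, Finset.mem_Icc] at hx
        rw [Finset.mem_Icc]
        omega
      refine le_trans (Finset.card_le_card this) ?_
      simp
    have h4 : (((Icc 1 N).filter (fun l => l < 5)).card : ℝ) ≤ 4 := by exact_mod_cast h3
    nlinarith
  calc ∑ l ∈ (Icc 1 N).filter Nat.Prime, gsmb K l ≤ ∑ l ∈ Icc 1 N, gsmb K l :=
        Finset.sum_le_sum_of_subset_of_nonneg (Finset.filter_subset _ _)
          (fun i _ _ => gsmb_nonneg K hK i)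
    _ ≤ ∑ l ∈ Icc 1 N, ((if l < 5 then 4 * K else 0) + 3 * K * (l : ℝ) ^ (-(11 / 10) : ℝ)) :=
        Finset.sum_le_sum (fun l _ => h1 l)
    _ = ∑ l ∈ Icc 1 N, (if l < 5 then 4 * K else 0) +
        3 * K * ∑ l ∈ Icc 1 N, (l : ℝ) ^ (-(11 / 10) : ℝ) := by
        rw [Finset.sum_add_distrib, Finset.mul_sum]
    _ ≤ 16 * K + 3 * K * ∑' n : ℕ, (n : ℝ) ^ (-(11 / 10) : ℝ) := by
        apply add_le_add h2
        apply mul_le_mul_of_nonneg_left _ (by linarith)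
        exact hs.sum_le_tsum _ (fun n _ => by positivity)

theorem gsm (K : ℝ) (hK : 1 ≤ K) : ∃ C : ℝ, 0 < C ∧ ∀ N : ℕ,
    ∑ G ∈ Icc 1 N, K ^ G.primeFactors.card * cf G ≤ C := by
  refine ⟨Real.exp (16 * K + 3 * K * ∑' n : ℕ, (n : ℝ) ^ (-(11 / 10) : ℝ)), Real.exp_pos _, ?_⟩
  intro N
  have h1 := PPW.eul (gsmf K) (gsmb K) (gsmf_nonneg K hK) (gsmf_one K) (gsmf_mul K)
    (gsm_b K hK) N
  have h2 : ∑ G ∈ Icc 1 N, K ^ G.primeFactors.card * cf G = ∑ G ∈ Icc 1 N, gsmf K G := by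
    apply Finset.sum_congr rfl
    intro G hG
    have : G ≠ 0 := by
      have := (Finset.mem_Icc.1 hG).1
      omega
    unfold gsmf
    rw [if_neg this]
  rw [h2]
  refine le_trans h1 ?_
  calc ∏ l ∈ (Icc 1 N).filter Nat.Prime, (1 + gsmb K l) ≤
      ∏ l ∈ (Icc 1 N).filter Nat.Prime, Real.exp (gsmb K l) := by
        apply Finset.prod_le_prod
        · intro l _
          have := gsmb_nonneg K hK l
          linarith
        · intro l _
          have := Real.add_one_le_exp (gsmb K l)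
          linarith
    _ = Real.exp (∑ l ∈ (Icc 1 N).filter Nat.Prime, gsmb K l) := (Real.exp_sum _ _).symm
    _ ≤ _ := Real.exp_le_exp.2 (gsm_sumb K hK N)

end Pool.Agent.PPF
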