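import Pool.Agent.PPF.Lev
import Pool.Agent.PPF.Gsm

/-!
# PPF/Fin: the number of all points (difficulty 4)

PROOF of `fin`.  Every `q = (G, p, y, g) ∈ S` has a witness `(D0, N)`, `G ≥ 1` (`Tri.hG`), `1 ≤ D0` (`Tri`: `D p ^ 2 ..`: if `D0 = 0` then
`(G N1) ^ 2 ≤ 0`, contradiction to `N1, G ≥ 1`), so `D0` lies in a level `i = Nat.log 2 D0` with `2 ^ i ≤ X`; rotate `q` 0, 1 or 2 times so that the
index with the smallest `|g_i| / √N_i` becomes the first one (`Hyp.rot`; see `SMQ/Rot.lean`, theorem `alla`): the rotated `(p, y, g)` satisfies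
`PL Q i G`.  So `S` is the union of three sets (number of rotations) which are mapped injectively to sets of `(G, p, y, g)` for which
`PL Q i G (p, y, g)` holds for some `i ≤ log2 X`; for every `i` and `G` apply `lev`, then `∑_G ≤ C 2 ^ i` by `gsm` (all `G` of `S` are in some `Icc 1 N`),
`∑_{i ≤ log2 X} 2 ^ i ≤ 2 X`.  Total `3 * K * C * 2 X`.
-/

set_option autoImplicit false

namespace Pool.Agent.PPF

open Finset Pool.Agent.SMQ

private def fin_rot (q : ℕ × ℤ × V3 × V3) : ℕ × ℤ × V3 × V3 :=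
  (q.1, q.2.1, rt q.2.2.1, rt q.2.2.2)

private theorem fin_rot_inj : Function.Injective fin_rot := by
  rintro ⟨n, p, ⟨a, b, c⟩, ⟨d, e, f⟩⟩ ⟨n', p', ⟨a', b', c'⟩, ⟨d', e', f'⟩⟩ h
  simp only [fin_rot, rt, Prod.mk.injEq] at h
  obtain ⟨h0, h1, ⟨h2, h3, h4⟩, h5, h6, h7⟩ := h
  subst h0 h1 h2 h3 h4 h5 h6 h7
  rfl

/-- `q` is a point of a level `i` with `2 ^ i ≤ X` -/
private def finP (Q : ℕ → ℕ → ℤ → V3 → V3 → ℕ × ℕ × ℕ → Prop) (X : ℕ)
    (q : ℕ × ℤ × V3 × V3) : Prop :=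
  1 ≤ q.1 ∧ ∃ i, i < Nat.log 2 X + 1 ∧ PL Q i q.1 q.2

private theorem fin_lev {D0 X : ℕ} (h1 : 1 ≤ D0) (h2 : D0 ≤ X) :
    ∃ i, i < Nat.log 2 X + 1 ∧ 2 ^ i ≤ D0 ∧ D0 < 2 ^ (i + 1) := by
  refine ⟨Nat.log 2 D0, ?_, Nat.pow_log_le_self 2 (by omega),
    Nat.lt_pow_succ_log_self (by norm_num) D0⟩
  have := Nat.log_mono_right (b := 2) h2
  omega

private theorem fin_cases (Q : ℕ → ℕ → ℤ → V3 → V3 → ℕ × ℕ × ℕ → Prop) (hQ : Hyp Q) (X : ℕ)
    (q : ℕ × ℤ × V3 × V3)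
    (h : ∃ (D0 : ℕ) (N : ℕ × ℕ × ℕ), D0 ≤ X ∧ Q D0 q.1 q.2.1 q.2.2.1 q.2.2.2 N) :
    finP Q X q ∨ finP Q X (fin_rot q) ∨ finP Q X (fin_rot (fin_rot q)) := by
  obtain ⟨D0, N, hD, hT⟩ := h
  obtain ⟨N4, u, v, tri⟩ := hQ.tri _ _ _ _ _ _ hT
  have hG : 1 ≤ q.1 := tri.hG
  have hD1 : 1 ≤ D0 := by
    by_contra hc
    have h0 : D0 = 0 := by omega
    have e1 := tri.t1.sN
    have e2 := tri.t1.hN
    rw [h0, Nat.mul_zero] at e1
    have e3 : 1 ≤ q.1 * N.1 := Nat.one_le_iff_ne_zero.2 (Nat.mul_ne_zero (by omega) (by omega))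
    have e4 : 1 ≤ (q.1 * N.1) ^ 2 := Nat.one_le_pow _ _ e3
    omega
  obtain ⟨i, hi, hi1, hi2⟩ := fin_lev hD1 hD
  have hT1 := hQ.rot _ _ _ _ _ _ hT
  have hT2 := hQ.rot _ _ _ _ _ _ hT1
  rcases le_total (|(q.2.2.2.1 : ℝ)| / √(N.1 : ℝ)) (|(q.2.2.2.2.1 : ℝ)| / √(N.2.1 : ℝ))
    with h1 | h1
  · rcases le_total (|(q.2.2.2.1 : ℝ)| / √(N.1 : ℝ)) (|(q.2.2.2.2.2 : ℝ)| / √(N.2.2 : ℝ))
      with h2 | h2
    · left
      exact ⟨hG, i, hi, D0, N, hi1, hi2, hT, h1, h2⟩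
    · right; right
      exact ⟨hG, i, hi, D0, _, hi1, hi2, hT2, h2, h2.trans h1⟩
  · rcases le_total (|(q.2.2.2.2.1 : ℝ)| / √(N.2.1 : ℝ)) (|(q.2.2.2.2.2 : ℝ)| / √(N.2.2 : ℝ))
      with h2 | h2
    · right; left
      exact ⟨hG, i, hi, D0, _, hi1, hi2, hT1, h2, h1⟩
    · right; right
      exact ⟨hG, i, hi, D0, _, hi1, hi2, hT2, h2.trans h1, h2⟩

private theorem fin_sum2 (X : ℕ) (hX : 1 ≤ X) :
    ∑ i ∈ range (Nat.log 2 X + 1), (2 : ℝ) ^ i ≤ 2 * X := by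
  have h1 : ∑ i ∈ range (Nat.log 2 X + 1), (2 : ℝ) ^ i = 2 ^ (Nat.log 2 X + 1) - 1 := by
    rw [geom_sum_eq (by norm_num)]
    norm_num
  rw [h1, pow_succ]
  have h2 : 2 ^ Nat.log 2 X ≤ X := Nat.pow_log_le_self 2 (by omega)
  have h3 : (2 : ℝ) ^ Nat.log 2 X ≤ X := by exact_mod_cast h2
  linarith

private theorem fin_one (Q : ℕ → ℕ → ℤ → V3 → V3 → ℕ × ℕ × ℕ → Prop) (K C : ℝ) (hK : 1 ≤ K)
    (hC : 0 < C)
    (hlev : ∀ i G : ℕ, 1 ≤ G → ∀ S : Finset (ℤ × V3 × V3), (∀ q ∈ S, PL Q i G q) →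
      (S.card : ℝ) ≤ K * K ^ G.primeFactors.card * (2 ^ i * cf G))
    (hgsm : ∀ N : ℕ, ∑ G ∈ Icc 1 N, K ^ G.primeFactors.card * cf G ≤ C)
    (X : ℕ) (hX : 1 ≤ X) (S : Finset (ℕ × ℤ × V3 × V3)) (hS : ∀ q ∈ S, finP Q X q) :
    (S.card : ℝ) ≤ K * C * (2 * X) := by
  classical
  set n := S.sup (fun q => q.1) with hn
  set L := Nat.log 2 X + 1 with hL
  have hsub : S ⊆ (range L ×ˢ Icc 1 n).biUnion
      (fun r => S.filter (fun q => q.1 = r.2 ∧ PL Q r.1 r.2 q.2)) := by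
    intro q hq
    obtain ⟨h1, i, hi, hp⟩ := hS q hq
    rw [Finset.mem_biUnion]
    refine ⟨(i, q.1), ?_, ?_⟩
    · rw [Finset.mem_product, Finset.mem_range, Finset.mem_Icc]
      exact ⟨hi, h1, Finset.le_sup (f := fun q : ℕ × ℤ × V3 × V3 => q.1) hq⟩
    · rw [Finset.mem_filter]
      exact ⟨hq, rfl, hp⟩
  have h1 : (S.card : ℝ) ≤ ∑ r ∈ range L ×ˢ Icc 1 n,
      ((S.filter (fun q => q.1 = r.2 ∧ PL Q r.1 r.2 q.2)).card : ℝ) := by
    have := (Finset.card_le_card hsub).trans Finset.card_biUnion_le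
    exact_mod_cast this
  have h2 : ∀ r ∈ range L ×ˢ Icc 1 n,
      ((S.filter (fun q => q.1 = r.2 ∧ PL Q r.1 r.2 q.2)).card : ℝ) ≤
      K * K ^ r.2.primeFactors.card * (2 ^ r.1 * cf r.2) := by
    intro r hr
    rw [Finset.mem_product, Finset.mem_range, Finset.mem_Icc] at hr
    have h3 := hlev r.1 r.2 hr.2.1
      ((S.filter (fun q => q.1 = r.2 ∧ PL Q r.1 r.2 q.2)).image Prod.snd) (by
        intro q hq
        obtain ⟨q', hq', rfl⟩ := Finset.mem_image.1 hq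
        rw [Finset.mem_filter] at hq'
        exact hq'.2.2)
    rwa [Finset.card_image_of_injOn] at h3
    intro a ha b hb hab
    rw [Finset.mem_coe, Finset.mem_filter] at ha hb
    exact Prod.ext (ha.2.1.trans hb.2.1.symm) hab
  refine (h1.trans (Finset.sum_le_sum h2)).trans ?_
  rw [Finset.sum_product]
  have h4 : ∀ i ∈ range L, ∑ G ∈ Icc 1 n, K * K ^ G.primeFactors.card * (2 ^ i * cf G) ≤
      K * C * 2 ^ i := by
    intro i _
    have e : ∑ G ∈ Icc 1 n, K * K ^ G.primeFactors.card * (2 ^ i * cf G) =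
        K * 2 ^ i * ∑ G ∈ Icc 1 n, K ^ G.primeFactors.card * cf G := by
      rw [Finset.mul_sum]
      refine Finset.sum_congr rfl (fun G _ => ?_)
      ring
    rw [e]
    have h5 := mul_le_mul_of_nonneg_left (hgsm n) (show (0 : ℝ) ≤ K * 2 ^ i by positivity)
    linarith
  refine (Finset.sum_le_sum h4).trans ?_
  rw [← Finset.mul_sum]
  exact mul_le_mul_of_nonneg_left (fin_sum2 X hX) (by positivity)

theorem fin (Q : ℕ → ℕ → ℤ → V3 → V3 → ℕ × ℕ × ℕ → Prop) (hQ : Hyp Q) (K0 : ℝ) (hK0 : 0 ≤ K0) (hc : ClB Q K0)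
    (hm : AvM) (ha : AvA) : ∃ C : ℝ, 0 < C ∧ ∀ X : ℕ, 1 ≤ X → ∀ S : Finset (ℕ × ℤ × V3 × V3),
    (∀ q ∈ S, ∃ (D0 : ℕ) (N : ℕ × ℕ × ℕ), D0 ≤ X ∧ Q D0 q.1 q.2.1 q.2.2.1 q.2.2.2 N) →
    (S.card : ℝ) ≤ C * X := by
  classical
  obtain ⟨K, hK, hlev⟩ := lev Q hQ K0 hK0 hc hm ha
  obtain ⟨C, hC, hgsm⟩ := gsm K hK
  have hK' : 0 < K := by linarith
  refine ⟨6 * (K * C), by positivity, ?_⟩
  intro X hX S hS
  set S1 := S.filter (fun q => finP Q X q) with hS1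
  set S2 := S.filter (fun q => finP Q X (fin_rot q)) with hS2
  set S3 := S.filter (fun q => finP Q X (fin_rot (fin_rot q))) with hS3
  have h1 : (S1.card : ℝ) ≤ K * C * (2 * X) :=
    fin_one Q K C hK hC hlev hgsm X hX S1 (fun q hq => (Finset.mem_filter.mp hq).2)
  have h2 : (S2.card : ℝ) ≤ K * C * (2 * X) := by
    have h := fin_one Q K C hK hC hlev hgsm X hX (S2.image fin_rot) (by
      intro q hq
      obtain ⟨r, hr, rfl⟩ := Finset.mem_image.mp hq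
      exact (Finset.mem_filter.mp hr).2)
    rwa [Finset.card_image_of_injective _ fin_rot_inj] at h
  have h3 : (S3.card : ℝ) ≤ K * C * (2 * X) := by
    have h := fin_one Q K C hK hC hlev hgsm X hX (S3.image (fun q => fin_rot (fin_rot q))) (by
      intro q hq
      obtain ⟨r, hr, rfl⟩ := Finset.mem_image.mp hq
      exact (Finset.mem_filter.mp hr).2)
    rwa [Finset.card_image_of_injective _
      (fun x y hxy => fin_rot_inj (fin_rot_inj hxy))] at h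
  have hu : S ⊆ S1 ∪ (S2 ∪ S3) := by
    intro q hq
    rw [Finset.mem_union, Finset.mem_union]
    rcases fin_cases Q hQ X q (hS q hq) with h | h | h
    · exact Or.inl (Finset.mem_filter.mpr ⟨hq, h⟩)
    · exact Or.inr (Or.inl (Finset.mem_filter.mpr ⟨hq, h⟩))
    · exact Or.inr (Or.inr (Finset.mem_filter.mpr ⟨hq, h⟩))
  have hc : S.card ≤ S1.card + (S2.card + S3.card) :=
    (Finset.card_le_card hu).trans ((Finset.card_union_le _ _).trans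
      (Nat.add_le_add_left (Finset.card_union_le _ _) _))
  have hc' : (S.card : ℝ) ≤ S1.card + (S2.card + S3.card) := by exact_mod_cast hc
  linarith

end Pool.Agent.PPF
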