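import Pool.Agent.PPF.Defs
import Pool.Agent.PPR.Geo

/-!
# PPF/Asm: the sum over the dyadic sizes of the norms (difficulty 3)

PROOF.  `R = ra (i + 1) > 0`, `ν(a) = ν1 ν2 ν3`, `ν_j = 2 ^ a_j / R ≤ 1`.  As `ν ≤ δ1` and `ν > 0`, `ν = ν ^ (1/4) ν ^ (3/4) ≤ δ1 ^ (1/4) ν ^ (3/4)`
(`Real.rpow_add`, `Real.rpow_le_rpow`), `ν ^ (3/4) = ν1 ^ (3/4) ν2 ^ (3/4) ν3 ^ (3/4)`.  `A` is contained in the product
of its three projections; every projection satisfies `(1 / R) 2 ^ n ≤ 1`, so by `PPR.geo` (`ε = 3/4`, `c = 1 / R`, `B = 1`) the sum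
of `(1 / R * 2 ^ n) ^ (3/4)` over it is at most `C`.  So the sum is at most `δ1 ^ (1/4) C ^ 3`.
-/

set_option autoImplicit false

namespace Pool.Agent.PPF

open Finset

private theorem asm_pt (R δ1 : ℝ) (hR : 0 < R) (a b c : ℕ)
    (h : (2 : ℝ) ^ (a + b + c) / R ^ 3 ≤ δ1) :
    (2 : ℝ) ^ (a + b + c) / R ^ 3 ≤ δ1 ^ (1 / 4 : ℝ) *
      ((1 / R * 2 ^ a) ^ (3 / 4 : ℝ) * ((1 / R * 2 ^ b) ^ (3 / 4 : ℝ) *
        (1 / R * 2 ^ c) ^ (3 / 4 : ℝ))) := by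
  have ha : (0 : ℝ) < 1 / R * 2 ^ a := by positivity
  have hb : (0 : ℝ) < 1 / R * 2 ^ b := by positivity
  have hc : (0 : ℝ) < 1 / R * 2 ^ c := by positivity
  have hv : (0 : ℝ) < (2 : ℝ) ^ (a + b + c) / R ^ 3 := by positivity
  have e : (2 : ℝ) ^ (a + b + c) / R ^ 3 = (1 / R * 2 ^ a) * ((1 / R * 2 ^ b) *
      (1 / R * 2 ^ c)) := by
    rw [pow_add, pow_add]
    field_simp
  have h1 : (2 : ℝ) ^ (a + b + c) / R ^ 3 = ((2 : ℝ) ^ (a + b + c) / R ^ 3) ^ (1 / 4 : ℝ) *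
      ((2 : ℝ) ^ (a + b + c) / R ^ 3) ^ (3 / 4 : ℝ) := by
    rw [← Real.rpow_add hv]
    norm_num
  have h2 : ((2 : ℝ) ^ (a + b + c) / R ^ 3) ^ (3 / 4 : ℝ) =
      (1 / R * 2 ^ a) ^ (3 / 4 : ℝ) * ((1 / R * 2 ^ b) ^ (3 / 4 : ℝ) *
        (1 / R * 2 ^ c) ^ (3 / 4 : ℝ)) := by
    rw [e, Real.mul_rpow ha.le (by positivity), Real.mul_rpow hb.le hc.le]
  rw [h2] at h1
  rw [h1]
  apply mul_le_mul_of_nonneg_right _ (by positivity)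
  exact Real.rpow_le_rpow hv.le h (by norm_num)

theorem asm : ∃ C : ℝ, 0 < C ∧ ∀ (i : ℕ) (δ1 : ℝ), 0 < δ1 → ∀ A : Finset (ℕ × ℕ × ℕ),
    (∀ a ∈ A, (2 : ℝ) ^ a.1 ≤ ra (i + 1) ∧ (2 : ℝ) ^ a.2.1 ≤ ra (i + 1) ∧
      (2 : ℝ) ^ a.2.2 ≤ ra (i + 1) ∧ nu3 i a ≤ δ1) →
    ∑ a ∈ A, nu3 i a ≤ C * δ1 ^ (1 / 4 : ℝ) := by
  obtain ⟨C, hC1, hC⟩ := Pool.Agent.PPR.geo (3 / 4) (by norm_num)
  refine ⟨C * (C * C), by positivity, ?_⟩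
  intro i δ1 hδ A hA
  have hR : 0 < ra (i + 1) := Real.sqrt_pos.2 (by positivity)
  set R : ℝ := ra (i + 1) with hRd
  have hcond : ∀ n : ℕ, (2 : ℝ) ^ n ≤ R → 1 / R * 2 ^ n ≤ 1 := by
    intro n hn
    rw [one_div, inv_mul_le_iff₀ hR]
    simpa using hn
  have hs : ∀ S : Finset ℕ, (∀ n ∈ S, (2 : ℝ) ^ n ≤ R) →
      ∑ n ∈ S, (1 / R * 2 ^ n) ^ (3 / 4 : ℝ) ≤ C := by
    intro S hS
    have := hC (1 / R) 1 (by positivity) one_pos S (fun n hn => hcond n (hS n hn))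
    simpa using this
  set S1 := A.image (fun a => a.1) with hS1
  set S2 := A.image (fun a => a.2.1) with hS2
  set S3 := A.image (fun a => a.2.2) with hS3
  have hsub : A ⊆ S1 ×ˢ (S2 ×ˢ S3) := by
    intro a ha
    simp only [mem_product, hS1, hS2, hS3, mem_image]
    exact ⟨⟨a, ha, rfl⟩, ⟨a, ha, rfl⟩, ⟨a, ha, rfl⟩⟩
  have b1 : ∑ n ∈ S1, (1 / R * 2 ^ n) ^ (3 / 4 : ℝ) ≤ C := by
    apply hs
    intro n hn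
    obtain ⟨a, ha, rfl⟩ := mem_image.1 hn
    exact (hA a ha).1
  have b2 : ∑ n ∈ S2, (1 / R * 2 ^ n) ^ (3 / 4 : ℝ) ≤ C := by
    apply hs
    intro n hn
    obtain ⟨a, ha, rfl⟩ := mem_image.1 hn
    exact (hA a ha).2.1
  have b3 : ∑ n ∈ S3, (1 / R * 2 ^ n) ^ (3 / 4 : ℝ) ≤ C := by
    apply hs
    intro n hn
    obtain ⟨a, ha, rfl⟩ := mem_image.1 hn
    exact (hA a ha).2.2.1
  have n1 : 0 ≤ ∑ n ∈ S1, (1 / R * 2 ^ n) ^ (3 / 4 : ℝ) := sum_nonneg (fun n _ => by positivity)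
  have n2 : 0 ≤ ∑ n ∈ S2, (1 / R * 2 ^ n) ^ (3 / 4 : ℝ) := sum_nonneg (fun n _ => by positivity)
  have n3 : 0 ≤ ∑ n ∈ S3, (1 / R * 2 ^ n) ^ (3 / 4 : ℝ) := sum_nonneg (fun n _ => by positivity)
  have key : ∑ a ∈ A, nu3 i a ≤ δ1 ^ (1 / 4 : ℝ) *
      ∑ a ∈ S1 ×ˢ (S2 ×ˢ S3), ((1 / R * 2 ^ a.1) ^ (3 / 4 : ℝ) *
        ((1 / R * 2 ^ a.2.1) ^ (3 / 4 : ℝ) * (1 / R * 2 ^ a.2.2) ^ (3 / 4 : ℝ))) := by
    calc ∑ a ∈ A, nu3 i a ≤ ∑ a ∈ A, δ1 ^ (1 / 4 : ℝ) *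
        ((1 / R * 2 ^ a.1) ^ (3 / 4 : ℝ) * ((1 / R * 2 ^ a.2.1) ^ (3 / 4 : ℝ) *
          (1 / R * 2 ^ a.2.2) ^ (3 / 4 : ℝ))) := by
          apply sum_le_sum
          intro a ha
          have h4 := (hA a ha).2.2.2
          unfold nu3 at h4 ⊢
          exact asm_pt R δ1 hR a.1 a.2.1 a.2.2 h4
      _ ≤ ∑ a ∈ S1 ×ˢ (S2 ×ˢ S3), δ1 ^ (1 / 4 : ℝ) *
        ((1 / R * 2 ^ a.1) ^ (3 / 4 : ℝ) * ((1 / R * 2 ^ a.2.1) ^ (3 / 4 : ℝ) *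
          (1 / R * 2 ^ a.2.2) ^ (3 / 4 : ℝ))) := by
          apply sum_le_sum_of_subset_of_nonneg hsub
          intro a _ _
          positivity
      _ = _ := by rw [mul_sum]
  refine key.trans ?_
  rw [sum_product]
  simp only [sum_product, ← mul_sum, ← sum_mul]
  rw [mul_comm]
  apply mul_le_mul_of_nonneg_right _ (by positivity)
  exact mul_le_mul b1 (mul_le_mul b2 b3 n3 (by positivity)) (by positivity) (by positivity)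

end Pool.Agent.PPF
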