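import Pool.Agent.PPF.Bsh
import Pool.Agent.PPR.RgD

/-!
# PPF/Bok: the box of a point is admissible (difficulty 4)

PROOF of `bx_ok`.  `gt`: `|p| ≥ 1`, so `G ^ 2 D0 ≤ 4 N1 N2 N3` (`sp`), `N_j ≤ √D0`: `G ^ 2 ≤ 4 √D0 ≤ 4 √(2 ^ (i + 1))`, so `G ^ 4 ≤ 16 * 2 * 2 ^ i ≤ TT i ^ 4 = 8 ^ 4 * 2 ^ i`.
`a1, a2, a3`: `2 ^ a_j ≤ N_j ≤ √D0 ≤ ra (i + 1)`.  `rg`: `rg_of` applied to `bx_sh` with `d = G ^ 2 2 ^ i ≤ D`, `ph = 2 ^ j` etc. (`Dy`: from the box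
conditions), `t = ta i * 2 ^ l`; unfold `RgI`.  `x1, x2, x3`: `D y_m ^ 2 ≤ 4 N_m ^ 3 ≤ 4 D0 ^ (3/2)`, so `y_m ^ 4 ≤ 16 D0 ≤ 32 * 2 ^ i ≤ TT i ^ 4`; `x4` the same for `p`
(`D p ^ 2 ≤ 4 N1 N2 N3`).  `x5`: `|Δ| ≤ |y1 y2 y3| + |p| ^ 3 ≤ 2 TT i ^ 3 ≤ TT i ^ 8` (`TT i ≥ 8`).
-/

set_option autoImplicit false

namespace Pool.Agent.PPF

open Pool.Agent.SMQ Pool.Agent.PPR

private theorem Bok_T (i : ℕ) : TT i ^ 4 = 4096 * (2 : ℝ) ^ i := by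
  have h : ((2 : ℝ) ^ ((i : ℝ) / 4)) ^ 4 = (2 : ℝ) ^ i := by
    rw [← Real.rpow_natCast ((2 : ℝ) ^ ((i : ℝ) / 4)) 4, ← Real.rpow_mul (by norm_num),
      ← Real.rpow_natCast 2 i]
    congr 1
    push_cast
    ring
  unfold TT
  rw [mul_pow, h]
  norm_num

private theorem Bok_8 (i : ℕ) : 8 ≤ TT i := by
  unfold TT
  have : (1 : ℝ) ≤ (2 : ℝ) ^ ((i : ℝ) / 4) := Real.one_le_rpow (by norm_num) (by positivity)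
  linarith

private theorem Bok_a {i : ℕ} {D z m : ℝ} (h0 : 0 < D) (h1 : D ≤ 2 * 2 ^ i) (hm : m ^ 2 ≤ D ^ 3)
    (h : D * z ^ 2 ≤ 4 * m) : |z| ≤ TT i := by
  have h2 : (D * z ^ 2) ^ 2 ≤ (4 * m) ^ 2 := pow_le_pow_left₀ (by positivity) h 2
  have h3 : D ^ 2 * z ^ 4 ≤ D ^ 2 * (16 * D) := by nlinarith
  have h4 : z ^ 4 ≤ 16 * D := le_of_mul_le_mul_left h3 (by positivity)
  have h5 : |z| ^ 4 ≤ TT i ^ 4 := by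
    rw [Bok_T, Even.pow_abs (by decide)]
    have : (0 : ℝ) < 2 ^ i := by positivity
    linarith
  have h8 := Bok_8 i
  exact le_of_pow_le_pow_left₀ (by norm_num) (by linarith) h5

private theorem Bok_dy {n : ℕ} {z : ℤ} (h : (2 : ℤ) ^ n ≤ |z|) (h' : |z| < (2 : ℤ) ^ (n + 1)) :
    Dy ((2 : ℝ) ^ n) (z : ℝ) := by
  have h1 : ((2 : ℝ)) ^ n ≤ |(z : ℝ)| := by exact_mod_cast h
  have h2 : |(z : ℝ)| < (2 : ℝ) ^ (n + 1) := by exact_mod_cast h'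
  refine ⟨by positivity, h1, ?_⟩
  rw [pow_succ] at h2
  linarith

private theorem Bok_n {G D N : ℕ} (hG : 1 ≤ G) (h : (G * N) ^ 2 ≤ G ^ 2 * D) :
    (N : ℝ) ^ 2 ≤ D := by
  have h1 : N ^ 2 ≤ D := by
    rw [mul_pow] at h
    exact Nat.le_of_mul_le_mul_left h (by positivity)
  exact_mod_cast h1

private theorem Bok_c {D a b c : ℝ} (hD : 0 < D) (ha : a ^ 2 ≤ D) (hb : b ^ 2 ≤ D)
    (hc : c ^ 2 ≤ D) : (a * b * c) ^ 2 ≤ D ^ 3 := by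
  have h1 : a ^ 2 * b ^ 2 ≤ D * D := mul_le_mul ha hb (sq_nonneg _) hD.le
  have h2 : a ^ 2 * b ^ 2 * c ^ 2 ≤ D * D * D := mul_le_mul h1 hc (sq_nonneg _) (by positivity)
  calc (a * b * c) ^ 2 = a ^ 2 * b ^ 2 * c ^ 2 := by ring
    _ ≤ D * D * D := h2
    _ = D ^ 3 := by ring

private theorem Bok_g {G D z m : ℝ} (hG : 1 ≤ G) (hD : 0 < D) (h : G ^ 2 * D * z ^ 2 ≤ 4 * m) :
    D * z ^ 2 ≤ 4 * m := by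
  have h1 : 1 ≤ G ^ 2 := one_le_pow₀ hG
  have h2 : 0 ≤ D * z ^ 2 := by positivity
  nlinarith

theorem bx_ok (Q : ℕ → ℕ → ℤ → V3 → V3 → ℕ × ℕ × ℕ → Prop) (hQ : Hyp Q) (i G : ℕ)
    (a : ℕ × ℕ × ℕ) (x : Ix) (D0 : ℕ) (p : ℤ) (y g : V3) (N : ℕ × ℕ × ℕ) (hG : 1 ≤ G)
    (h : Q D0 G p y g N) (hb : BxP i G a x D0 p y g N) : Ok i G a x := by
  obtain ⟨N4, u, v, T⟩ := hQ.tri D0 G p y g N h
  have hd1 : (2 : ℝ) ^ i ≤ D0 := by exact_mod_cast hb.d1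
  have hd2 : (D0 : ℝ) ≤ 2 * 2 ^ i := by
    have := hb.d2
    have h2 : (D0 : ℝ) < 2 ^ (i + 1) := by exact_mod_cast this
    rw [pow_succ] at h2
    linarith
  have hD : (0 : ℝ) < D0 := lt_of_lt_of_le (by positivity) hd1
  have hGr : (1 : ℝ) ≤ G := by exact_mod_cast hG
  have n1 := Bok_n hG T.t1.sN
  have n2 := Bok_n hG T.t2.sN
  have n3 := Bok_n hG T.t3.sN
  have c1 := Bok_c hD n1 n1 n1
  have c2 := Bok_c hD n2 n2 n2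
  have c3 := Bok_c hD n3 n3 n3
  have c4 := Bok_c hD n1 n2 n3
  have sp : (G : ℝ) ^ 2 * D0 * (p : ℝ) ^ 2 ≤ 4 * ((N.1 : ℝ) * N.2.1 * N.2.2) := by
    have h1 : (((G ^ 2 * D0 : ℕ) : ℤ) : ℝ) * (p : ℝ) ^ 2 ≤ 4 * (N.1 : ℝ) * N.2.1 * N.2.2 := by
      exact_mod_cast T.sp
    push_cast at h1
    linarith
  have s1 : (G : ℝ) ^ 2 * D0 * (y.1 : ℝ) ^ 2 ≤ 4 * ((N.1 : ℝ) * N.1 * N.1) := by
    have h1 : (((G ^ 2 * D0 : ℕ) : ℤ) : ℝ) * (y.1 : ℝ) ^ 2 ≤ 4 * (N.1 : ℝ) ^ 3 := by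
      exact_mod_cast T.t1.sy
    push_cast at h1
    linarith
  have s2 : (G : ℝ) ^ 2 * D0 * (y.2.1 : ℝ) ^ 2 ≤ 4 * ((N.2.1 : ℝ) * N.2.1 * N.2.1) := by
    have h1 : (((G ^ 2 * D0 : ℕ) : ℤ) : ℝ) * (y.2.1 : ℝ) ^ 2 ≤ 4 * (N.2.1 : ℝ) ^ 3 := by
      exact_mod_cast T.t2.sy
    push_cast at h1
    linarith
  have s3 : (G : ℝ) ^ 2 * D0 * (y.2.2 : ℝ) ^ 2 ≤ 4 * ((N.2.2 : ℝ) * N.2.2 * N.2.2) := by
    have h1 : (((G ^ 2 * D0 : ℕ) : ℤ) : ℝ) * (y.2.2 : ℝ) ^ 2 ≤ 4 * (N.2.2 : ℝ) ^ 3 := by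
      exact_mod_cast T.t3.sy
    push_cast at h1
    linarith
  have sg : (G : ℝ) ^ 2 * D0 * (g.2.1 : ℝ) ^ 2 ≤
      4 * ((N.2.1 : ℝ) ^ 2 * (N.2.2 : ℝ) * (N.1 : ℝ)) := by
    have h1 : (((G ^ 2 * D0 : ℕ) : ℤ) : ℝ) * (g.2.1 : ℝ) ^ 2 ≤
        4 * (N.2.1 : ℝ) ^ 2 * N.2.2 * N.1 := by
      exact_mod_cast T.t2.sg
    push_cast at h1
    linarith
  have k1 := Bok_a hD hd2 c1 (Bok_g hGr hD s1)
  have k2 := Bok_a hD hd2 c2 (Bok_g hGr hD s2)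
  have k3 := Bok_a hD hd2 c3 (Bok_g hGr hD s3)
  have k4 := Bok_a hD hd2 c4 (Bok_g hGr hD sp)
  have y1 := Bok_dy hb.y1 hb.y1'
  have y2 := Bok_dy hb.y2 hb.y2'
  have y3 := Bok_dy hb.y3 hb.y3'
  have p1 := Bok_dy hb.p1 hb.p1'
  have e1 := Bok_dy hb.e1 hb.e1'
  have hDe : ((De p y : ℤ) : ℝ) = (y.1 : ℝ) * y.2.1 * y.2.2 - (p : ℝ) ^ 3 := by
    unfold De
    push_cast
    ring
  rw [hDe] at e1
  have hra : ∀ m n : ℕ, 2 ^ m ≤ n → (n : ℝ) ^ 2 ≤ D0 → (2 : ℝ) ^ m ≤ ra (i + 1) := by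
    intro m n h1 h2
    have h3 : (2 : ℝ) ^ m ≤ n := by exact_mod_cast h1
    unfold ra
    refine h3.trans (Real.le_sqrt_of_sq_le ?_)
    have h4 : (2 : ℝ) ^ (i + 1) = 2 ^ i * 2 := pow_succ _ _
    linarith
  have h8 := Bok_8 i
  refine ⟨?_, hra _ _ hb.n1 n1, hra _ _ hb.n2 n2, hra _ _ hb.n3 n3, ?_, y1.2.1.trans k1,
    y2.2.1.trans k2, y3.2.1.trans k3, p1.2.1.trans k4, ?_⟩
  · have hp1 : (1 : ℝ) ≤ (p : ℝ) ^ 2 := by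
      have h1 : 1 ≤ |p| := Int.one_le_abs T.hp
      have h2 : (1 : ℝ) ≤ |(p : ℝ)| := by exact_mod_cast h1
      rw [← sq_abs]
      exact one_le_pow₀ h2
    have h2 : (D0 : ℝ) * (G : ℝ) ^ 2 ≤ 4 * ((N.1 : ℝ) * N.2.1 * N.2.2) := by
      have h3 : 0 ≤ (G : ℝ) ^ 2 * D0 := by positivity
      nlinarith
    have h3 := Bok_a hD hd2 c4 h2
    rwa [abs_of_nonneg (by positivity)] at h3
  · unfold RgI
    refine rg_of (ra a.1) (ra a.2.1) (ra a.2.2) (ta i * 2 ^ x.2.2.2.2.2) p y.1 y.2.1 y.2.2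
      g.1 g.2.1 g.2.2 N.1 N.2.1 N.2.2 (bx_sh Q hQ i G a x D0 p y g N h hb)
      ((G : ℝ) ^ 2 * 2 ^ i) ((G : ℝ) ^ 2 * D0) (2 ^ x.2.2.2.1) (2 ^ x.1) (2 ^ x.2.1)
      (2 ^ x.2.2.1) (2 ^ x.2.2.2.2.1) (by positivity) ?_ p1 y1 y2 y3 e1 sp ?_ ?_ ?_ sg
    · exact mul_le_mul_of_nonneg_left hd1 (by positivity)
    · linarith
    · linarith
    · linarith
  · have h1 : |(y.1 : ℝ) * y.2.1 * y.2.2 - (p : ℝ) ^ 3| ≤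
        |(y.1 : ℝ)| * |(y.2.1 : ℝ)| * |(y.2.2 : ℝ)| + |(p : ℝ)| ^ 3 := by
      have := abs_sub ((y.1 : ℝ) * y.2.1 * y.2.2) ((p : ℝ) ^ 3)
      rwa [abs_mul, abs_mul, abs_pow] at this
    have h0 : 0 ≤ TT i := by linarith
    have h2 : |(y.1 : ℝ)| * |(y.2.1 : ℝ)| * |(y.2.2 : ℝ)| ≤ TT i * TT i * TT i :=
      mul_le_mul (mul_le_mul k1 k2 (abs_nonneg _) h0) k3 (abs_nonneg _) (by positivity)
    have h3 : |(p : ℝ)| ^ 3 ≤ TT i ^ 3 := pow_le_pow_left₀ (abs_nonneg _) k4 3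
    have h4 : TT i ^ 4 ≤ TT i ^ 8 := pow_le_pow_right₀ (by linarith) (by norm_num)
    have h5 : 2 * TT i ^ 3 ≤ TT i ^ 4 := by
      have : 0 ≤ TT i ^ 3 := by positivity
      nlinarith
    have h6 := e1.2.1
    nlinarith

end Pool.Agent.PPF
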