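import Pool.Agent.PPF.Defs
import Pool.Agent.PPR.ShA

/-!
# PPF/Bsh: the points of a box are in a shell (difficulty 3)

PROOF of `bx_sh`.  `sh_of` with `r_j = ra a_j` (`ra n ^ 2 = 2 ^ n`), `t = ta i * 2 ^ l`, `N_j` real; `m1, m2, m3` are the fields `hi`,
`a2, a3` the fields `st` of `t2, t3` (up to the order of the summands).
-/

set_option autoImplicit false

namespace Pool.Agent.PPF

open Pool.Agent.SMQ Pool.Agent.PPR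

private theorem ra_pos (n : ℕ) : 0 < ra n := Real.sqrt_pos.2 (by positivity)

private theorem ra_sq (n : ℕ) : ra n ^ 2 = 2 ^ n := Real.sq_sqrt (by positivity)

private theorem ra_le {n N : ℕ} (h : 2 ^ n ≤ N) : ra n ^ 2 ≤ (N : ℝ) := by
  rw [ra_sq]
  exact_mod_cast h

private theorem le_ra {n N : ℕ} (h : N < 2 ^ (n + 1)) : (N : ℝ) ≤ 2 * ra n ^ 2 := by
  rw [ra_sq, ← pow_succ']
  exact_mod_cast h.le

theorem bx_sh (Q : ℕ → ℕ → ℤ → V3 → V3 → ℕ × ℕ × ℕ → Prop) (hQ : Hyp Q) (i G : ℕ)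
    (a : ℕ × ℕ × ℕ) (x : Ix) (D0 : ℕ) (p : ℤ) (y g : V3) (N : ℕ × ℕ × ℕ)
    (h : Q D0 G p y g N) (hb : BxP i G a x D0 p y g N) :
    Sh (ra a.1) (ra a.2.1) (ra a.2.2) (ta i * 2 ^ x.2.2.2.2.2) p y.1 y.2.1 y.2.2
      g.1 g.2.1 g.2.2 N.1 N.2.1 N.2.2 := by
  obtain ⟨N4, u, v, T⟩ := hQ.tri D0 G p y g N h
  have e1 : (N.1 : ℝ) * ((y.1 : ℝ) * y.2.1 * y.2.2 - (p : ℝ) ^ 3) =
      (y.1 : ℝ) * g.2.1 * g.2.2 - (p : ℝ) * (g.1 : ℝ) ^ 2 := by exact_mod_cast T.t1.hi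
  have e2 : (N.2.1 : ℝ) * ((y.2.1 : ℝ) * y.2.2 * y.1 - (p : ℝ) ^ 3) =
      (y.2.1 : ℝ) * g.2.2 * g.1 - (p : ℝ) * (g.2.1 : ℝ) ^ 2 := by exact_mod_cast T.t2.hi
  have e3 : (N.2.2 : ℝ) * ((y.2.2 : ℝ) * y.1 * y.2.1 - (p : ℝ) ^ 3) =
      (y.2.2 : ℝ) * g.1 * g.2.1 - (p : ℝ) * (g.2.2 : ℝ) ^ 2 := by exact_mod_cast T.t3.hi
  have tp : 0 < ta i * 2 ^ x.2.2.2.2.2 := by
    unfold ta
    positivity
  have s2 := T.t2.st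
  have s3 := T.t3.st
  refine sh_of (ra_pos _) (ra_pos _) (ra_pos _) tp (ra_le hb.n1) (le_ra hb.n1') (ra_le hb.n2)
    (le_ra hb.n2') (ra_le hb.n3) (le_ra hb.n3') e1 ?_ ?_ ?_ s3 hb.m2 hb.m3 hb.t1 hb.t1'
  · linear_combination e2
  · linear_combination e3
  · rw [add_comm]
    exact s2

end Pool.Agent.PPF
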