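import Pool.Agent.PPF.SmA

/-!
# PPF/Nmn: the pairs which are not main (difficulty 4)

Notation: `T = TT i = 8 * 2 ^ (i / 4)`, `R ^ 2 = 2 ^ (i + 1)`, `√d = G √(2 ^ i)`, `U ^ 2 = ν R ^ 3`, `c1 = 2 ^ (3/4) / 8` (so `1/5 ≤ c1`, `c1 ≤ 1`),
`Z = zz = η1 η2 η3 k μ s ^ 2` where `η_m = 2 ^ x_m √d / (ra a_m) ^ 3`, `k = 2 ^ j √d / U`, `μ = 2 ^ k' √d ^ 3 / U ^ 3`, `s = ..` are the arguments of `RgI`.
PROOF.  (1) `U / √d = ν ^ (1/2) R ^ (3/2) / (G 2 ^ (i/2)) = ν ^ (1/2) c1 T / G` (`R ^ (3/2) = 2 ^ (3 (i + 1) / 4)`).  So `2 ^ j = k c1 ν ^ (1/2) T / G`,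
`2 ^ k' = μ (c1 ν ^ (1/2) T / G) ^ 3`, and `2 ^ x_m = η_m (ra a_m) ^ 3 / √d = η_m ν_m ^ (3/2) c1 T / G ≥ η_m ν ^ (3/2) c1 T / G` (`ν ≤ ν_m ≤ 1`).
(2) By the bounds of `Rg` (`η ≤ 8`, `k ≤ 8`, `μ ≤ 512`, `s ^ 2 ≤ 256`) each of `η_m`, `k`, `μ` is at least `Z / 2 ^ 26`.
(3) Suppose `2 ^ 34 T ^ (-δ) ≤ Z ν ^ (3/2) / G ^ 3`.  As `ν ≤ 1 ≤ G`, each of `2 ^ j`, `2 ^ x_m` is at least `(Z / 2 ^ 26) ν ^ (3/2) (1/5) T / G ^ 3 ≥ T ^ (1 - δ)`, and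
`2 ^ k' ≥ (Z / 2 ^ 26) ν ^ (3/2) T ^ 3 / (125 G ^ 3) ≥ T ^ (3 - δ)`: the pair is main.
(4) So if the pair is not main, `Z ν ^ (3/2) / G ^ 3 < 2 ^ 34 T ^ (-δ)`.  If `G ≤ T ^ (δ/12)` and `ν ≥ T ^ (-δ/6)` then `Z < 2 ^ 34 T ^ (-δ) T ^ (δ/4) T ^ (δ/4) = 2 ^ 34 T ^ (-δ/2)`.
-/

set_option autoImplicit false

namespace Pool.Agent.PPF

open Pool.Agent.PPR

private lemma Nmn_rg (η1 η2 η3 k μ s : ℝ) (h : Rg η1 η2 η3 k μ s) :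
    Zz η1 η2 η3 k μ s ≤ 2 ^ 26 * η1 ∧ Zz η1 η2 η3 k μ s ≤ 2 ^ 26 * η2 ∧
      Zz η1 η2 η3 k μ s ≤ 2 ^ 26 * η3 ∧ Zz η1 η2 η3 k μ s ≤ 2 ^ 26 * k ∧
      Zz η1 η2 η3 k μ s ≤ 2 ^ 26 * μ := by
  have p1 := h.p1
  have p2 := h.p2
  have p3 := h.p3
  have pk := h.pk
  have pm := h.pm
  have ps := h.ps
  have b1 := h.b1
  have b2 := h.b2
  have b3 := h.b3
  have bk := h.bk
  have bm := h.bm
  have bs := h.bs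
  unfold Zz
  refine ⟨?_, ?_, ?_, ?_, ?_⟩
  · calc η1 * η2 * η3 * k * μ * s ^ 2 ≤ η1 * 8 * 8 * 8 * 512 * 16 ^ 2 := by gcongr
      _ = 2 ^ 26 * η1 := by ring
  · calc η1 * η2 * η3 * k * μ * s ^ 2 ≤ 8 * η2 * 8 * 8 * 512 * 16 ^ 2 := by gcongr
      _ = 2 ^ 26 * η2 := by ring
  · calc η1 * η2 * η3 * k * μ * s ^ 2 ≤ 8 * 8 * η3 * 8 * 512 * 16 ^ 2 := by gcongr
      _ = 2 ^ 26 * η3 := by ring
  · calc η1 * η2 * η3 * k * μ * s ^ 2 ≤ 8 * 8 * 8 * k * 512 * 16 ^ 2 := by gcongr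
      _ = 2 ^ 26 * k := by ring
  · calc η1 * η2 * η3 * k * μ * s ^ 2 ≤ 8 * 8 * 8 * 8 * μ * 16 ^ 2 := by gcongr
      _ = 2 ^ 20 * μ := by ring
      _ ≤ 2 ^ 26 * μ := by gcongr <;> norm_num

private lemma Nmn_ra_sq (n : ℕ) : ra n ^ 2 = 2 ^ n := by
  unfold ra
  exact Real.sq_sqrt (by positivity)

private lemma Nmn_ra_pos (n : ℕ) : 0 < ra n := by
  unfold ra
  exact Real.sqrt_pos.2 (by positivity)

private lemma Nmn_TT (i : ℕ) : TT i ^ 4 = 4096 * 2 ^ i := by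
  unfold TT
  rw [mul_pow, ← Real.rpow_natCast (2 ^ ((i : ℝ) / 4)) 4, ← Real.rpow_mul (by norm_num)]
  have e : (i : ℝ) / 4 * ((4 : ℕ) : ℝ) = (i : ℝ) := by
    push_cast
    ring
  rw [e, Real.rpow_natCast]
  norm_num

private lemma Nmn_one_le (i : ℕ) : 1 ≤ TT i := by
  unfold TT
  have h1 : (1 : ℝ) ≤ 2 ^ ((i : ℝ) / 4) := Real.one_le_rpow (by norm_num) (by positivity)
  linarith

/-- comparison of fourth powers -/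
private lemma Nmn_four {A B : ℝ} (hA : 0 ≤ A) (h : B ^ 4 ≤ A ^ 4) : B ≤ A :=
  le_of_pow_le_pow_left₀ (by norm_num) hA h

private lemma Nmn_R6 (i : ℕ) : ra (i + 1) ^ 6 = 8 * (2 ^ i) ^ 3 := by
  have h1 := Nmn_ra_sq (i + 1)
  calc ra (i + 1) ^ 6 = (ra (i + 1) ^ 2) ^ 3 := by ring
    _ = (2 ^ (i + 1)) ^ 3 := by rw [h1]
    _ = 8 * (2 ^ i) ^ 3 := by ring

private lemma Nmn_U (i G : ℕ) (a : ℕ × ℕ × ℕ) (hG : 1 ≤ G) (w : ℝ) (hw : 0 < w)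
    (hν : w ^ 2 ≤ nu3 i a) (hGw : (G : ℝ) * w ≤ 1) :
    w ^ 2 * TT i / 5 ≤ ra a.1 * ra a.2.1 * ra a.2.2 / √((G : ℝ) ^ 2 * 2 ^ i) := by
  have hG' : (0 : ℝ) < G := by exact_mod_cast hG
  have hd : (0 : ℝ) < (G : ℝ) ^ 2 * 2 ^ i := by positivity
  have r1 := Nmn_ra_pos a.1
  have r2 := Nmn_ra_pos a.2.1
  have r3 := Nmn_ra_pos a.2.2
  have rR := Nmn_ra_pos (i + 1)
  have hU : (ra a.1 * ra a.2.1 * ra a.2.2) ^ 2 = nu3 i a * ra (i + 1) ^ 3 := by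
    unfold nu3
    rw [div_mul_cancel₀ _ (pow_pos rR 3).ne', mul_pow, mul_pow, Nmn_ra_sq, Nmn_ra_sq, Nmn_ra_sq]
    ring
  apply Nmn_four (div_nonneg (by positivity) (Real.sqrt_nonneg _))
  have e1 : (ra a.1 * ra a.2.1 * ra a.2.2 / √((G : ℝ) ^ 2 * 2 ^ i)) ^ 4 =
      nu3 i a ^ 2 * (8 * 2 ^ i) / (G : ℝ) ^ 4 := by
    rw [div_pow]
    have h4 : √((G : ℝ) ^ 2 * 2 ^ i) ^ 4 = ((G : ℝ) ^ 2 * 2 ^ i) ^ 2 := by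
      calc √((G : ℝ) ^ 2 * 2 ^ i) ^ 4 = (√((G : ℝ) ^ 2 * 2 ^ i) ^ 2) ^ 2 := by ring
        _ = _ := by rw [Real.sq_sqrt hd.le]
    have h5 : (ra a.1 * ra a.2.1 * ra a.2.2) ^ 4 = nu3 i a ^ 2 * (8 * (2 ^ i) ^ 3) := by
      calc (ra a.1 * ra a.2.1 * ra a.2.2) ^ 4 = ((ra a.1 * ra a.2.1 * ra a.2.2) ^ 2) ^ 2 := by ring
        _ = nu3 i a ^ 2 * ra (i + 1) ^ 6 := by rw [hU]; ring
        _ = _ := by rw [Nmn_R6]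
    rw [h4, h5]
    have h2 : (0 : ℝ) < 2 ^ i := by positivity
    field_simp
  rw [e1, div_pow, mul_pow, Nmn_TT, div_le_div_iff₀ (by positivity) (by positivity)]
  have h6 : w ^ 4 ≤ nu3 i a ^ 2 := by
    calc w ^ 4 = (w ^ 2) ^ 2 := by ring
      _ ≤ nu3 i a ^ 2 := by gcongr
  have h7 : ((G : ℝ) * w) ^ 4 ≤ 1 := pow_le_one₀ (by positivity) hGw
  calc (w ^ 2) ^ 4 * (4096 * 2 ^ i) * (G : ℝ) ^ 4 = w ^ 4 * ((G : ℝ) * w) ^ 4 * (4096 * 2 ^ i) := by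
        ring
    _ ≤ nu3 i a ^ 2 * 1 * (5000 * 2 ^ i) := by
        gcongr
        norm_num
    _ = nu3 i a ^ 2 * (8 * 2 ^ i) * 5 ^ 4 := by ring

private lemma Nmn_X (i G n : ℕ) (hG : 1 ≤ G) (ν w : ℝ) (hw : 0 < w)
    (hν : w ^ 2 ≤ ν) (hn : ν * ra (i + 1) ≤ 2 ^ n) (hGw : (G : ℝ) * w ≤ 1) :
    w ^ 4 * TT i / 5 ≤ ra n ^ 3 / √((G : ℝ) ^ 2 * 2 ^ i) := by
  have hG' : (0 : ℝ) < G := by exact_mod_cast hG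
  have hd : (0 : ℝ) < (G : ℝ) ^ 2 * 2 ^ i := by positivity
  have r1 := Nmn_ra_pos n
  have rR := Nmn_ra_pos (i + 1)
  have h2 : (0 : ℝ) < 2 ^ i := by positivity
  apply Nmn_four (div_nonneg (by positivity) (Real.sqrt_nonneg _))
  have h4 : √((G : ℝ) ^ 2 * 2 ^ i) ^ 4 = ((G : ℝ) ^ 2 * 2 ^ i) ^ 2 := by
    calc √((G : ℝ) ^ 2 * 2 ^ i) ^ 4 = (√((G : ℝ) ^ 2 * 2 ^ i) ^ 2) ^ 2 := by ring
      _ = _ := by rw [Real.sq_sqrt hd.le]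
  have h5 : (w ^ 2) ^ 6 * (8 * (2 ^ i) ^ 3) ≤ (ra n ^ 3) ^ 4 := by
    calc (w ^ 2) ^ 6 * (8 * (2 ^ i) ^ 3) = (w ^ 2 * ra (i + 1)) ^ 6 := by
          rw [mul_pow _ (ra (i + 1)), Nmn_R6]
      _ ≤ (ν * ra (i + 1)) ^ 6 := by gcongr
      _ ≤ (2 ^ n) ^ 6 := by
          have : 0 ≤ ν * ra (i + 1) := mul_nonneg (le_trans (by positivity) hν) rR.le
          gcongr
      _ = (ra n ^ 3) ^ 4 := by
          rw [← Nmn_ra_sq n]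
          ring
  rw [div_pow, div_pow, mul_pow, Nmn_TT, h4, div_le_div_iff₀ (by positivity) (by positivity)]
  have h7 : ((G : ℝ) * w) ^ 4 ≤ 1 := pow_le_one₀ (by positivity) hGw
  calc (w ^ 4) ^ 4 * (4096 * 2 ^ i) * ((G : ℝ) ^ 2 * 2 ^ i) ^ 2
      = 4096 * ((w ^ 2) ^ 6 * (2 ^ i) ^ 3) * ((G : ℝ) * w) ^ 4 := by ring
    _ ≤ 5000 * ((w ^ 2) ^ 6 * (2 ^ i) ^ 3) * 1 := by
        gcongr
        norm_num
    _ = (w ^ 2) ^ 6 * (8 * (2 ^ i) ^ 3) * 5 ^ 4 := by ring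
    _ ≤ (ra n ^ 3) ^ 4 * 5 ^ 4 := by gcongr

/-- `ν R ≤ 2 ^ a_m` -/
private lemma Nmn_nu (R : ℝ) (hR : 0 < R) (p q r : ℝ) (hp : 0 < p) (hrp : 0 < r)
    (hq : q ≤ R) (hr : r ≤ R) : p * q * r / R ^ 3 * R ≤ p := by
  rw [div_mul_eq_mul_div, div_le_iff₀ (by positivity)]
  calc p * q * r * R ≤ p * R * R * R := by gcongr
    _ = p * R ^ 3 := by ring

private lemma Nmn_fin (T w Z η A X c : ℝ) (m : ℕ) (hw : 0 < w) (hw1 : w ≤ 1) (hT : 1 ≤ T)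
    (hη : 0 < η) (hZ : 2 ^ 34 * w ^ 6 ≤ Z) (hZη : Z ≤ 2 ^ 26 * η) (hA : w ^ m * T / 5 ≤ A)
    (hm : m ≤ 4) (hX : X = η * A) (hc : c = T * w ^ 12) : c ≤ X := by
  have h1 : 2 ^ 8 * w ^ 6 ≤ η := by linarith
  rw [hX, hc]
  have h2 : 0 ≤ w ^ m * T / 5 := by positivity
  have h3 : w ^ 6 ≤ w ^ m := pow_le_pow_of_le_one hw.le hw1 (by omega)
  calc T * w ^ 12 = w ^ 6 * (w ^ 6 * T) := by ring
    _ ≤ 2 ^ 8 * w ^ 6 * (w ^ m * T / 5) := by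
        have h4 : w ^ 6 * T ≤ w ^ m * T := by gcongr
        have h5 : 0 ≤ w ^ 6 * (w ^ m * T) := by positivity
        nlinarith [mul_le_mul_of_nonneg_left h4 (pow_pos hw 6).le]
    _ ≤ η * A := mul_le_mul h1 hA h2 hη.le

theorem nmn (i G : ℕ) (a : ℕ × ℕ × ℕ) (x : Ix) (δ : ℝ) (hδ : 0 < δ) (hG : 1 ≤ G)
    (h : Ok i G a x) (hG2 : (G : ℝ) ≤ TT i ^ (δ / 12)) (hn : ¬ Mp i δ x) :
    nu3 i a ≤ TT i ^ (-(δ / 6)) ∨ zz i G a x ≤ 2 ^ 34 * TT i ^ (-(δ / 2)) := by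
  by_contra hcon
  push Not at hcon
  obtain ⟨hν, hZ⟩ := hcon
  apply hn
  have hT1 := Nmn_one_le i
  have hT : 0 < TT i := by linarith
  obtain ⟨w, hwdef⟩ : ∃ w : ℝ, w = TT i ^ (-(δ / 12)) := ⟨_, rfl⟩
  have hw : 0 < w := by
    rw [hwdef]
    positivity
  have hw1 : w ≤ 1 := by
    rw [hwdef]
    exact Real.rpow_le_one_of_one_le_of_nonpos hT1 (by linarith)
  have pw : ∀ n : ℕ, w ^ n = TT i ^ (-(δ / 12) * n) := by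
    intro n
    rw [hwdef, ← Real.rpow_natCast, ← Real.rpow_mul hT.le]
  have e2 : TT i ^ (-(δ / 6)) = w ^ 2 := by
    rw [pw]
    congr 1
    push_cast
    ring
  have e6 : TT i ^ (-(δ / 2)) = w ^ 6 := by
    rw [pw]
    congr 1
    push_cast
    ring
  have e12 : TT i ^ (-δ) = w ^ 12 := by
    rw [pw]
    congr 1
    push_cast
    ring
  have e1 : TT i ^ (1 - δ) = TT i * w ^ 12 := by
    rw [sub_eq_add_neg, Real.rpow_add hT, Real.rpow_one, e12]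
  have e3 : TT i ^ (3 - δ) = TT i ^ 3 * w ^ 12 := by
    rw [sub_eq_add_neg, Real.rpow_add hT, e12]
    congr 1
    exact Real.rpow_ofNat (TT i) 3
  rw [e2] at hν
  rw [e6] at hZ
  have hGw : (G : ℝ) * w ≤ 1 := by
    calc (G : ℝ) * w ≤ TT i ^ (δ / 12) * w := by gcongr
      _ = 1 := by
        rw [hwdef, ← Real.rpow_add hT, add_neg_cancel, Real.rpow_zero]
  have hr : Rg (2 ^ x.1 * √((G : ℝ) ^ 2 * 2 ^ i) / ra a.1 ^ 3)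
    (2 ^ x.2.1 * √((G : ℝ) ^ 2 * 2 ^ i) / ra a.2.1 ^ 3)
    (2 ^ x.2.2.1 * √((G : ℝ) ^ 2 * 2 ^ i) / ra a.2.2 ^ 3)
    (2 ^ x.2.2.2.1 * √((G : ℝ) ^ 2 * 2 ^ i) / (ra a.1 * ra a.2.1 * ra a.2.2))
    (2 ^ x.2.2.2.2.1 * √((G : ℝ) ^ 2 * 2 ^ i) ^ 3 / (ra a.1 * ra a.2.1 * ra a.2.2) ^ 3)
    (ta i * 2 ^ x.2.2.2.2.2 * √((G : ℝ) ^ 2 * 2 ^ i) / (ra a.1 * ra a.2.1 * ra a.2.2)) := h.rg
  obtain ⟨z1, z2, z3, z4, z5⟩ := Nmn_rg _ _ _ _ _ _ hr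
  have hG' : (0 : ℝ) < G := by exact_mod_cast hG
  have hs : 0 < √((G : ℝ) ^ 2 * 2 ^ i) := Real.sqrt_pos.2 (by positivity)
  have r1 := Nmn_ra_pos a.1
  have r2 := Nmn_ra_pos a.2.1
  have r3 := Nmn_ra_pos a.2.2
  have rR := Nmn_ra_pos (i + 1)
  have hU : 0 < ra a.1 * ra a.2.1 * ra a.2.2 := by positivity
  have hUd := Nmn_U i G a hG w hw hν.le hGw
  have hνe : nu3 i a = 2 ^ a.1 * 2 ^ a.2.1 * 2 ^ a.2.2 / ra (i + 1) ^ 3 := by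
    unfold nu3
    rw [pow_add, pow_add]
  have n1 : nu3 i a * ra (i + 1) ≤ 2 ^ a.1 := by
    rw [hνe]
    exact Nmn_nu _ rR _ _ _ (by positivity) (by positivity) h.a2 h.a3
  have n2 : nu3 i a * ra (i + 1) ≤ 2 ^ a.2.1 := by
    rw [hνe, mul_comm ((2 : ℝ) ^ a.1)]
    exact Nmn_nu _ rR _ _ _ (by positivity) (by positivity) h.a1 h.a3
  have n3 : nu3 i a * ra (i + 1) ≤ 2 ^ a.2.2 := by
    rw [hνe, mul_comm _ ((2 : ℝ) ^ a.2.2), ← mul_assoc]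
    exact Nmn_nu _ rR _ _ _ (by positivity) (by positivity) h.a1 h.a2
  have hmul : ∀ X s U : ℝ, 0 < s → 0 < U → X = X * s / U * (U / s) := by
    intro X s U hs hU
    field_simp
  refine ⟨?_, ?_, ?_, ?_, ?_⟩
  · exact Nmn_fin (TT i) w (zz i G a x) _ _ _ _ 2 hw hw1 hT1 hr.pk hZ.le z4 hUd (by norm_num)
      (hmul _ _ _ hs hU) e1
  · exact Nmn_fin (TT i) w (zz i G a x) _ _ _ _ 4 hw hw1 hT1 hr.p1 hZ.le z1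
      (Nmn_X i G a.1 hG (nu3 i a) w hw hν.le n1 hGw) (by norm_num)
      (hmul _ _ _ hs (pow_pos r1 3)) e1
  · exact Nmn_fin (TT i) w (zz i G a x) _ _ _ _ 4 hw hw1 hT1 hr.p2 hZ.le z2
      (Nmn_X i G a.2.1 hG (nu3 i a) w hw hν.le n2 hGw) (by norm_num)
      (hmul _ _ _ hs (pow_pos r2 3)) e1
  · exact Nmn_fin (TT i) w (zz i G a x) _ _ _ _ 4 hw hw1 hT1 hr.p3 hZ.le z3
      (Nmn_X i G a.2.2 hG (nu3 i a) w hw hν.le n3 hGw) (by norm_num)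
      (hmul _ _ _ hs (pow_pos r3 3)) e1
  · have h8 : 2 ^ 8 * w ^ 6 ≤ 2 ^ x.2.2.2.2.1 * √((G : ℝ) ^ 2 * 2 ^ i) ^ 3 /
        (ra a.1 * ra a.2.1 * ra a.2.2) ^ 3 := by
      have z5' : zz i G a x ≤ 2 ^ 26 * (2 ^ x.2.2.2.2.1 * √((G : ℝ) ^ 2 * 2 ^ i) ^ 3 /
        (ra a.1 * ra a.2.1 * ra a.2.2) ^ 3) := z5
      linarith
    rw [e3, hmul ((2 : ℝ) ^ x.2.2.2.2.1) (√((G : ℝ) ^ 2 * 2 ^ i) ^ 3)
      ((ra a.1 * ra a.2.1 * ra a.2.2) ^ 3) (pow_pos hs 3) (pow_pos hU 3), ← div_pow (ra a.1 * _ * _)]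
    have h9 : 0 ≤ w ^ 2 * TT i / 5 := by positivity
    calc TT i ^ 3 * w ^ 12 ≤ 2 ^ 8 * w ^ 6 * (w ^ 2 * TT i / 5) ^ 3 := by
          have h10 : 0 ≤ TT i ^ 3 * w ^ 12 := by positivity
          have h11 : 2 ^ 8 * w ^ 6 * (w ^ 2 * TT i / 5) ^ 3 =
              256 / 125 * (TT i ^ 3 * w ^ 12) := by ring
          rw [h11]
          linarith
      _ ≤ _ := mul_le_mul h8 (pow_le_pow_left₀ h9 hUd 3) (pow_nonneg h9 3) hr.pm.le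

/-- the trivial bound -/
theorem zz_le (i G : ℕ) (a : ℕ × ℕ × ℕ) (x : Ix) (h : Ok i G a x) :
    0 < zz i G a x ∧ zz i G a x ≤ 2 ^ 29 := by
  have hr : Rg _ _ _ _ _ _ := h.rg
  have h1 := (Nmn_rg _ _ _ _ _ _ hr).1
  have h2 := hr.b1
  have p1 := hr.p1
  have p2 := hr.p2
  have p3 := hr.p3
  have pk := hr.pk
  have pm := hr.pm
  have ps := hr.ps
  constructor
  · unfold zz ZI Zz
    exact mul_pos (mul_pos (mul_pos (mul_pos (mul_pos p1 p2) p3) pk) pm) (pow_pos ps 2)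
  · unfold zz ZI
    calc _ ≤ 2 ^ 26 * _ := h1
      _ ≤ 2 ^ 26 * 8 := by gcongr
      _ = 2 ^ 29 := by norm_num

end Pool.Agent.PPF
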