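import Pool.Agent.PPF.Gsa

/-!
# PPF/SwB: the sum of the weights and `JB` (difficulty 3)

`JB x = Bxx (2 ^ j) (2 ^ x1) (2 ^ x2) (2 ^ x3) (2 ^ k) = 2 ^ j Mu (2 ^ k) (2 ^ x1 2 ^ x2 2 ^ x3)`, `Mu μ E = (μ ^ 4 min μ E) ^ (1/5)` (PPR/DefsB, TotC).
PROOF of `swm`.  `AvM` for `T = TT i`, `P = 2 ^ j` etc. (natural numbers; the upper bounds are `x1 .. x4` of `Ok`), and
`min Z Y ≤ Mu Z Y` (`(min Z Y) ^ 5 ≤ Z ^ 4 min Z Y`; `PPR.le_mu` if it exists); `hJ 1 = G1`, `hJ 2 = 1`, `hJ 3 = 1 / G1 ≤ G1 ^ (-2/15)` (`g1_le`).  Then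
`SU = SW 1 + SW 2 JA + SW 3 JC ≤ K (10 ^ 7) ^ ω JB (G1 + JA + G1 ^ (-2/15) JC)` (`JA, JC ≥ 0`: `mm, Lc ≥ 0`).
PROOF of `swa`.  `AvA` for `T = TT i ≥ 8 ≥ 2`; `TT i ≤ TT i ^ 8`; `Z ^ (4/5) m ^ (1/5) = (Z ^ 4 m) ^ (1/5) = Mu Z Y` for `m = min Z Y` (`Real.mul_rpow`);
`hJa = (G1, 1, G1 ^ (-2/15))`.
-/

set_option autoImplicit false

namespace Pool.Agent.PPF

open Pool.Agent.PPR

private theorem swb_ra_pos (n : ℕ) : 0 < ra n := by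
  unfold ra
  positivity

private theorem swb_ta_pos (i : ℕ) : 0 < ta i := by
  unfold ta
  positivity

private theorem swb_mm_nonneg (t ph Dh : ℝ) (h1 : 0 < ph) (h2 : 0 < Dh) : 0 ≤ mm t ph Dh := by
  unfold mm
  exact le_min (by positivity) (by positivity)

private theorem swb_Lc_nonneg (U t r yh Dh : ℝ) (hU : 0 < U) (hr : 0 < r) (h1 : 0 < yh)
    (h2 : 0 < Dh) : 0 ≤ Lc U t r yh Dh := by
  unfold Lc
  exact le_min (by positivity) (by positivity)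

private theorem swb_JA_nonneg (r1 r2 r3 Q τ : ℝ) (x : Ix) (h1 : 0 < r1) (h2 : 0 < r2)
    (h3 : 0 < r3) (hτ : 0 < τ) : 0 ≤ JA r1 r2 r3 Q τ x := by
  unfold JA Aa
  have hU : 0 < r1 * r2 * r3 := by positivity
  have a1 := swb_mm_nonneg (τ * 2 ^ x.2.2.2.2.2) (2 ^ x.2.2.2.1) (2 ^ x.2.2.2.2.1)
    (by positivity) (by positivity)
  have a2 := swb_Lc_nonneg (r1 * r2 * r3) (τ * 2 ^ x.2.2.2.2.2) r2 (2 ^ x.2.1) (2 ^ x.2.2.2.2.1) hU h2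
    (by positivity) (by positivity)
  have a3 := swb_Lc_nonneg (r1 * r2 * r3) (τ * 2 ^ x.2.2.2.2.2) r3 (2 ^ x.2.2.1) (2 ^ x.2.2.2.2.1) hU h3
    (by positivity) (by positivity)
  positivity

private theorem swb_JC_nonneg (r1 r2 r3 τ : ℝ) (x : Ix) (h1 : 0 < r1) (h2 : 0 < r2)
    (h3 : 0 < r3) (hτ : 0 < τ) : 0 ≤ JC r1 r2 r3 τ x := by
  unfold JC Bb
  have hU : 0 < r1 * r2 * r3 := by positivity
  have a1 := swb_mm_nonneg (τ * 2 ^ x.2.2.2.2.2) (2 ^ x.2.2.2.1) (2 ^ x.2.2.2.2.1)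
    (by positivity) (by positivity)
  have a2 := swb_Lc_nonneg (r1 * r2 * r3) (τ * 2 ^ x.2.2.2.2.2) r2 (2 ^ x.2.1) (2 ^ x.2.2.2.2.1) hU h2
    (by positivity) (by positivity)
  have a3 := swb_Lc_nonneg (r1 * r2 * r3) (τ * 2 ^ x.2.2.2.2.2) r3 (2 ^ x.2.2.1) (2 ^ x.2.2.2.2.1) hU h3
    (by positivity) (by positivity)
  have a4 := le_min a2 a3
  positivity

private theorem swb_TT (i : ℕ) : 8 ≤ TT i := by
  unfold TT
  have h : (1 : ℝ) ≤ (2 : ℝ) ^ ((i : ℝ) / 4) :=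
    Real.one_le_rpow (by norm_num) (by positivity)
  linarith

private theorem swb_mu (Z m E : ℝ) (hZ : 0 < Z) (hE : 0 < E) (hm : m = min Z E) :
    Z ^ (4 / 5 : ℝ) * m ^ (1 / 5 : ℝ) = Mu Z E := by
  unfold Mu
  have h0 : 0 < min Z E := lt_min hZ hE
  rw [hm, Real.mul_rpow (by positivity) h0.le, ← Real.rpow_natCast Z 4, ← Real.rpow_mul hZ.le]
  norm_num

/-- the combination of the three bounds -/
private theorem swb_comb (G i : ℕ) (a : ℕ × ℕ × ℕ) (x : Ix) (A : ℝ)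
    (h1 : SW 1 G x ≤ A * (PPW.G1 G : ℝ)) (h2 : SW 2 G x ≤ A)
    (h3 : SW 3 G x ≤ A * (PPW.G1 G : ℝ) ^ (-(2 / 15) : ℝ)) :
    SU G a i x ≤ A * U3 G a i x := by
  unfold SU U3
  have hJA := swb_JA_nonneg (ra a.1) (ra a.2.1) (ra a.2.2)
    (min (ra a.1 ^ 2) (min (ra a.2.1 ^ 2) (ra a.2.2 ^ 2))) (ta i) x (swb_ra_pos _) (swb_ra_pos _)
    (swb_ra_pos _) (swb_ta_pos _)
  have hJC := swb_JC_nonneg (ra a.1) (ra a.2.1) (ra a.2.2) (ta i) x (swb_ra_pos _) (swb_ra_pos _)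
    (swb_ra_pos _) (swb_ta_pos _)
  have e2 := mul_le_mul_of_nonneg_right h2 hJA
  have e3 := mul_le_mul_of_nonneg_right h3 hJC
  calc _ ≤ A * (PPW.G1 G : ℝ) + A * JA (ra a.1) (ra a.2.1) (ra a.2.2)
        (min (ra a.1 ^ 2) (min (ra a.2.1 ^ 2) (ra a.2.2 ^ 2))) (ta i) x +
        A * (PPW.G1 G : ℝ) ^ (-(2 / 15) : ℝ) * JC (ra a.1) (ra a.2.1) (ra a.2.2) (ta i) x :=
        add_le_add (add_le_add h1 e2) e3
    _ = _ := by ring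

theorem swm (hm : AvM) : ∃ δ K T0 : ℝ, 0 < δ ∧ δ ≤ 1 / 4 ∧ 0 < K ∧ 2 ≤ T0 ∧
    ∀ (i G : ℕ) (a : ℕ × ℕ × ℕ) (x : Ix), 1 ≤ G → T0 ≤ TT i → (G : ℝ) ≤ TT i ^ δ → Ok i G a x →
      Mp i δ x → SU G a i x ≤ K * (10 ^ 7 : ℝ) ^ G.primeFactors.card * (JB x * U3 G a i x) := by
  obtain ⟨δ, K, T0, hδ, hδ', hK, hT0, h⟩ := hm
  refine ⟨δ, K, T0, hδ, hδ', hK, hT0, ?_⟩
  intro i G a x hG hT hGT hok hmp
  obtain ⟨m1, m2, m3, m4, m5⟩ := hmp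
  have key := h (TT i) hT G hG hGT (2 ^ x.2.2.2.1) (2 ^ x.1) (2 ^ x.2.1) (2 ^ x.2.2.1)
    (2 ^ x.2.2.2.2.1) (by push_cast; exact m1) (by push_cast; exact hok.x4)
    (by push_cast; exact m2) (by push_cast; exact hok.x1) (by push_cast; exact m3)
    (by push_cast; exact hok.x2) (by push_cast; exact m4) (by push_cast; exact hok.x3)
    (by push_cast; exact m5)
  obtain ⟨g1, -⟩ := g1_le G hG
  have g1' : (1 : ℝ) ≤ (PPW.G1 G : ℝ) := by exact_mod_cast g1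
  have hpow : (0 : ℝ) < K * (10 ^ 7 : ℝ) ^ G.primeFactors.card := by positivity
  have hJB : ((2 ^ x.2.2.2.1 : ℕ) : ℝ) * min ((2 ^ x.2.2.2.2.1 : ℕ) : ℝ)
      (((2 ^ x.1 : ℕ) : ℝ) * ((2 ^ x.2.1 : ℕ) : ℝ) * ((2 ^ x.2.2.1 : ℕ) : ℝ)) ≤ JB x := by
    unfold JB Bxx
    push_cast
    exact mul_le_mul_of_nonneg_left (le_mu _ _ (by positivity) (by positivity)) (by positivity)
  have hJB0 : 0 ≤ JB x := by
    refine le_trans ?_ hJB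
    positivity
  have hbd : ∀ j ∈ ({1, 2, 3} : Finset ℕ), SW j G x ≤
      K * (10 ^ 7 : ℝ) ^ G.primeFactors.card * PPW.hJ j G * JB x := by
    intro j hj
    refine le_trans (key j hj) ?_
    refine mul_le_mul_of_nonneg_left hJB ?_
    have : 0 ≤ PPW.hJ j G := by
      unfold PPW.hJ
      split_ifs <;> positivity
    positivity
  have b1 := hbd 1 (by simp)
  have b2 := hbd 2 (by simp)
  have b3 := hbd 3 (by simp)
  have e1 : PPW.hJ 1 G = (PPW.G1 G : ℝ) := by simp [PPW.hJ]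
  have e2 : PPW.hJ 2 G = 1 := by simp [PPW.hJ]
  have e3 : PPW.hJ 3 G ≤ (PPW.G1 G : ℝ) ^ (-(2 / 15) : ℝ) := by
    have : PPW.hJ 3 G = (PPW.G1 G : ℝ) ^ (-1 : ℝ) := by
      rw [Real.rpow_neg_one]
      simp [PPW.hJ]
    rw [this]
    exact Real.rpow_le_rpow_of_exponent_le g1' (by norm_num)
  have hA : K * (10 ^ 7 : ℝ) ^ G.primeFactors.card * (JB x * U3 G a i x) =
      (K * (10 ^ 7 : ℝ) ^ G.primeFactors.card * JB x) * U3 G a i x := by ring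
  rw [hA]
  refine swb_comb G i a x _ ?_ ?_ ?_
  · rw [e1] at b1
    calc _ ≤ _ := b1
      _ = _ := by ring
  · rw [e2] at b2
    calc _ ≤ _ := b2
      _ = _ := by ring
  · calc _ ≤ _ := b3
      _ = K * (10 ^ 7 : ℝ) ^ G.primeFactors.card * JB x * PPW.hJ 3 G := by ring
      _ ≤ _ := mul_le_mul_of_nonneg_left e3 (by positivity)

theorem swa (ha : AvA) (ε : ℝ) (hε : 0 < ε) : ∃ K : ℝ, 0 < K ∧ ∀ (i G : ℕ) (a : ℕ × ℕ × ℕ) (x : Ix),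
    1 ≤ G → Ok i G a x → SU G a i x ≤ K * TT i ^ ε * (JB x * U3 G a i x) := by
  obtain ⟨K, hK, h⟩ := ha ε hε
  refine ⟨K, hK, ?_⟩
  intro i G a x hG hok
  have h8 := swb_TT i
  have h1T : (1 : ℝ) ≤ TT i := by linarith
  have hTT : TT i ≤ TT i ^ 8 := le_self_pow₀ h1T (by norm_num)
  have key := h (TT i) (by linarith) G hG hok.gt (2 ^ x.2.2.2.1) (2 ^ x.1) (2 ^ x.2.1)
    (2 ^ x.2.2.1) (2 ^ x.2.2.2.2.1) Nat.one_le_two_pow Nat.one_le_two_pow Nat.one_le_two_pow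
    Nat.one_le_two_pow Nat.one_le_two_pow
    (by push_cast; exact hok.x4.trans hTT) (by push_cast; exact hok.x1.trans hTT)
    (by push_cast; exact hok.x2.trans hTT) (by push_cast; exact hok.x3.trans hTT)
    (by push_cast; exact hok.x5)
  have hJB : ((2 ^ x.2.2.2.1 : ℕ) : ℝ) * (((2 ^ x.2.2.2.2.1 : ℕ) : ℝ) ^ (4 / 5 : ℝ) *
      (min ((2 ^ x.2.2.2.2.1 : ℕ) : ℝ)
      (((2 ^ x.1 : ℕ) : ℝ) * ((2 ^ x.2.1 : ℕ) : ℝ) * ((2 ^ x.2.2.1 : ℕ) : ℝ))) ^ (1 / 5 : ℝ)) =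
      JB x := by
    unfold JB Bxx
    push_cast
    rw [swb_mu _ _ _ (by positivity) (by positivity) rfl]
  have b1 := key 1 (by simp)
  have b2 := key 2 (by simp)
  have b3 := key 3 (by simp)
  rw [hJB] at b1 b2 b3
  have e1 : PPW.hJa 1 G = (PPW.G1 G : ℝ) := by simp [PPW.hJa]
  have e2 : PPW.hJa 2 G = 1 := by simp [PPW.hJa]
  have e3 : PPW.hJa 3 G = (PPW.G1 G : ℝ) ^ (-(2 / 15) : ℝ) := by simp [PPW.hJa]
  rw [e1] at b1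
  rw [e2] at b2
  rw [e3] at b3
  have hA : K * TT i ^ ε * (JB x * U3 G a i x) = (K * TT i ^ ε * JB x) * U3 G a i x := by ring
  rw [hA]
  refine swb_comb G i a x _ ?_ ?_ ?_
  · calc _ ≤ _ := b1
      _ = _ := by ring
  · calc _ ≤ _ := b2
      _ = _ := by ring
  · calc _ ≤ _ := b3
      _ = _ := by ring

end Pool.Agent.PPF
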