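import Pool.Agent.PPF.SmB
import Pool.Agent.PPF.Nmn
import Pool.Agent.PPF.SwB

/-!
# PPF/Bsm: the sum over all pairs of a level (difficulty 4)

PROOF of `bsum`.  Let `δ, K1, T0` be from `swm`, `κ = δ / 12`, `ε = δ / 720`, `K2` from `swa` for `ε`, `C` from `smb`;
put `F = 2 ^ i G1 ^ (-2/15) / G ≤ 2 ^ i cf G` (`G ^ (-1) ≤ G ^ (-29/30)`).  Note `TT i ≥ 8 ≥ 1`.
(a) `TT i < T0`: `SU ≤ K2 T0 ^ ε JB U3` for all pairs, so by `smb` with `δ1 = 1` (`nu_le`), `δ2 = 2 ^ 29` (`zz_le`) the sum is at most `K2 T0 ^ ε C 2 F`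
(`(2 ^ 29) ^ (1/360) ≤ 2`).
(b) `T0 ≤ TT i`, `G ≤ TT i ^ κ`: split `B` into the main pairs (`Mp i δ`), the pairs with `ν ≤ TT i ^ (-δ/6)`, and the pairs with `zz ≤ 2 ^ 34 TT i ^ (-δ/2)`
(`nmn`; `TT i ^ κ ≤ TT i ^ δ`).  Main pairs: `swm` and `smb` with `δ1 = 1`, `δ2 = 2 ^ 29`: at most `K1 (10 ^ 7) ^ ω C 2 F`.
The others: `swa` and `smb` with `(δ1, δ2) = (TT i ^ (-δ/6), 2 ^ 29)` and `(1, 2 ^ 34 TT i ^ (-δ/2))`: `TT i ^ ε (TT i ^ (-δ/6)) ^ (1/4) = TT i ^ (ε - δ/24) ≤ 1` and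
`TT i ^ ε (2 ^ 34 TT i ^ (-δ/2)) ^ (1/360) ≤ 2 TT i ^ (ε - δ/720) = 2`: at most `K2 C 4 F`.
(c) `T0 ≤ TT i`, `TT i ^ κ < G`: all pairs by `swa` and `smb` with `δ1 = 1`, `δ2 = 2 ^ 29`; `TT i ^ ε = (TT i ^ κ) ^ (1/60) ≤ G ^ (1/60) ≤ G ^ (1/30)`, so the sum is at most
`K2 C 2 G ^ (1/30) F = K2 C 2 2 ^ i cf G`.
In all cases the sum is at most `K K ^ ω (2 ^ i cf G)` for a suitable `K ≥ 10 ^ 7`.
All summands are `≥ 0` (`SU ≥ 0`: `WJ ≥ 0`, `JA, JC ≥ 0`; `JB U3 ≥ 0`).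
-/

set_option autoImplicit false

namespace Pool.Agent.PPF

open Finset Pool.Agent.SMQ Pool.Agent.PPR

private theorem bsm_ra (n : ℕ) : 0 < ra n := by
  unfold ra
  exact Real.sqrt_pos.mpr (by positivity)

private theorem bsm_ta (i : ℕ) : 0 < ta i := by
  unfold ta
  positivity

private theorem bsm_JB (x : Ix) : 0 ≤ JB x := by
  unfold JB Bxx
  have := mu_pos (2 ^ x.2.2.2.2.1) (2 ^ x.1 * 2 ^ x.2.1 * 2 ^ x.2.2.1) (by positivity)
    (by positivity)
  positivity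

private theorem bsm_mm (t ph Dh : ℝ) (h1 : 0 < t) (h2 : 0 < ph) (h3 : 0 < Dh) :
    0 < mm t ph Dh := by
  unfold mm
  exact lt_min (by positivity) (by positivity)

private theorem bsm_Lc (U t r yh Dh : ℝ) (h0 : 0 < U) (h1 : 0 < t) (hr : 0 < r) (h2 : 0 < yh)
    (h3 : 0 < Dh) : 0 < Lc U t r yh Dh := by
  unfold Lc
  exact lt_min (by positivity) (by positivity)

private theorem bsm_U3 (G : ℕ) (a : ℕ × ℕ × ℕ) (i : ℕ) (x : Ix) : 0 ≤ U3 G a i x := by
  have r1 := bsm_ra a.1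
  have r2 := bsm_ra a.2.1
  have r3 := bsm_ra a.2.2
  have t := bsm_ta i
  have t' : 0 < ta i * 2 ^ x.2.2.2.2.2 := by positivity
  have hU : 0 < ra a.1 * ra a.2.1 * ra a.2.2 := by positivity
  have m := bsm_mm (ta i * 2 ^ x.2.2.2.2.2) (2 ^ x.2.2.2.1) (2 ^ x.2.2.2.2.1) t' (by positivity)
    (by positivity)
  have l2 := bsm_Lc _ _ _ (2 ^ x.2.1) (2 ^ x.2.2.2.2.1) hU t' r2 (by positivity) (by positivity)
  have l3 := bsm_Lc _ _ _ (2 ^ x.2.2.1) (2 ^ x.2.2.2.2.1) hU t' r3 (by positivity) (by positivity)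
  have hA : 0 ≤ JA (ra a.1) (ra a.2.1) (ra a.2.2)
      (min (ra a.1 ^ 2) (min (ra a.2.1 ^ 2) (ra a.2.2 ^ 2))) (ta i) x := by
    unfold JA Aa
    positivity
  have hC : 0 ≤ JC (ra a.1) (ra a.2.1) (ra a.2.2) (ta i) x := by
    unfold JC Bb
    have := lt_min l2 l3
    positivity
  unfold U3
  positivity

private theorem bsm_TT (i : ℕ) : 8 ≤ TT i := by
  unfold TT
  have : (1 : ℝ) ≤ (2 : ℝ) ^ ((i : ℝ) / 4) := Real.one_le_rpow (by norm_num) (by positivity)
  linarith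

private theorem bsm_two (n : ℕ) (hn : n ≤ 360) : ((2 : ℝ) ^ n) ^ (1 / 360 : ℝ) ≤ 2 := by
  rw [← Real.rpow_natCast, ← Real.rpow_mul (by norm_num)]
  have hn' : (n : ℝ) ≤ 360 := by exact_mod_cast hn
  calc (2 : ℝ) ^ ((n : ℝ) * (1 / 360)) ≤ 2 ^ (1 : ℝ) :=
        Real.rpow_le_rpow_of_exponent_le (by norm_num) (by linarith)
    _ = 2 := Real.rpow_one 2

theorem bsum (hm : AvM) (ha : AvA) : ∃ K : ℝ, 1 ≤ K ∧ ∀ i G : ℕ, 1 ≤ G →
    ∀ B : Finset ((ℕ × ℕ × ℕ) × Ix), (∀ b ∈ B, Ok i G b.1 b.2) →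
    ∑ b ∈ B, SU G b.1 i b.2 ≤ K * K ^ G.primeFactors.card * (2 ^ i * cf G) := by
  classical
  obtain ⟨δ, K1, T0, hδ, hδ4, hK1, hT0, hswm⟩ := swm hm
  obtain ⟨K2, hK2, hswa⟩ := swa ha (δ / 720) (by positivity)
  obtain ⟨C, hC, hsmb⟩ := smb
  have hT0' : 0 < T0 := by linarith
  have hTp : 0 < T0 ^ (δ / 720) := Real.rpow_pos_of_pos hT0' _
  obtain ⟨K, hKdef⟩ : ∃ K : ℝ, K = 10 ^ 7 + 2 * K2 * T0 ^ (δ / 720) * C +
    (2 * K1 + 4 * K2) * C + 2 * K2 * C := ⟨_, rfl⟩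
  have pa : 0 < 2 * K2 * T0 ^ (δ / 720) * C := by positivity
  have pb : 0 < (2 * K1 + 4 * K2) * C := by positivity
  have pc : 0 < 2 * K2 * C := by positivity
  have hK7 : (10 : ℝ) ^ 7 ≤ K := by rw [hKdef]; linarith
  have hK1' : 1 ≤ K := le_trans (by norm_num) hK7
  refine ⟨K, hK1', ?_⟩
  intro i G hG B hB
  have hGR : (1 : ℝ) ≤ G := by exact_mod_cast hG
  have hG0 : (0 : ℝ) < G := by linarith
  obtain ⟨g1a, g1b⟩ := g1_le G hG
  have hg1 : (0 : ℝ) < (PPW.G1 G : ℝ) := by exact_mod_cast g1a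
  have hTT := bsm_TT i
  have hTT1 : 1 ≤ TT i := by linarith
  have hTT0 : 0 < TT i := by linarith
  obtain ⟨c, hc⟩ : ∃ c : ℝ, c = (PPW.G1 G : ℝ) ^ (-(2 / 15) : ℝ) := ⟨_, rfl⟩
  have hc0 : 0 < c := by rw [hc]; exact Real.rpow_pos_of_pos hg1 _
  obtain ⟨F, hF⟩ : ∃ F : ℝ, F = 2 ^ i * (c / G) := ⟨_, rfl⟩
  have hF0 : 0 < F := by rw [hF]; positivity
  have hcf : 0 < cf G := by
    unfold cf
    exact mul_pos (Real.rpow_pos_of_pos hg1 _) (Real.rpow_pos_of_pos hG0 _)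
  have hFc : F ≤ 2 ^ i * cf G := by
    rw [hF]
    unfold cf
    rw [← hc]
    refine mul_le_mul_of_nonneg_left ?_ (by positivity)
    rw [div_eq_mul_inv]
    refine mul_le_mul_of_nonneg_left ?_ hc0.le
    rw [← Real.rpow_neg_one]
    exact Real.rpow_le_rpow_of_exponent_le hGR (by norm_num)
  have hKw : 1 ≤ K ^ G.primeFactors.card := one_le_pow₀ hK1'
  have hKw0 : 0 < K * K ^ G.primeFactors.card := by positivity
  have hKK : K ≤ K * K ^ G.primeFactors.card := le_mul_of_one_le_right (by linarith) hKw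
  have hfin : ∀ A : ℝ, A ≤ K * K ^ G.primeFactors.card →
      A * F ≤ K * K ^ G.primeFactors.card * (2 ^ i * cf G) := by
    intro A hA
    exact (mul_le_mul_of_nonneg_right hA hF0.le).trans (mul_le_mul_of_nonneg_left hFc hKw0.le)
  have hJU : ∀ b : (ℕ × ℕ × ℕ) × Ix, 0 ≤ JB b.2 * U3 G b.1 i b.2 := fun b =>
    mul_nonneg (bsm_JB _) (bsm_U3 _ _ _ _)
  have hnu : ∀ b ∈ B, nu3 i b.1 ≤ 1 := fun b hb =>
    (nu_le i b.1 (hB b hb).a1 (hB b hb).a2 (hB b hb).a3).2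
  have hzz : ∀ b ∈ B, zz i G b.1 b.2 ≤ 2 ^ 29 := fun b hb => (zz_le i G b.1 b.2 (hB b hb)).2
  have e29 := bsm_two 29 (by norm_num)
  have e34 := bsm_two 34 (by norm_num)
  have hall : ∑ b ∈ B, JB b.2 * U3 G b.1 i b.2 ≤ 2 * C * F := by
    have h := hsmb i G 1 (2 ^ 29) hG one_pos (by positivity) B
      (fun b hb => ⟨hB b hb, hnu b hb, hzz b hb⟩)
    rw [← hc, ← hF, Real.one_rpow, one_mul] at h
    refine h.trans ?_
    refine mul_le_mul_of_nonneg_right ?_ hF0.le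
    calc C * ((2 : ℝ) ^ 29) ^ (1 / 360 : ℝ) ≤ C * 2 := mul_le_mul_of_nonneg_left e29 hC.le
      _ = 2 * C := by ring
  by_cases h1 : TT i < T0
  · -- (a)
    have hle : TT i ^ (δ / 720) ≤ T0 ^ (δ / 720) :=
      Real.rpow_le_rpow hTT0.le h1.le (by positivity)
    calc ∑ b ∈ B, SU G b.1 i b.2
        ≤ ∑ b ∈ B, K2 * T0 ^ (δ / 720) * (JB b.2 * U3 G b.1 i b.2) := by
          refine sum_le_sum fun b hb => ?_
          refine (hswa i G b.1 b.2 hG (hB b hb)).trans ?_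
          refine mul_le_mul_of_nonneg_right ?_ (hJU b)
          exact mul_le_mul_of_nonneg_left hle hK2.le
      _ = K2 * T0 ^ (δ / 720) * ∑ b ∈ B, JB b.2 * U3 G b.1 i b.2 := by rw [mul_sum]
      _ ≤ K2 * T0 ^ (δ / 720) * (2 * C * F) := mul_le_mul_of_nonneg_left hall (by positivity)
      _ = (2 * K2 * T0 ^ (δ / 720) * C) * F := by ring
      _ ≤ _ := hfin _ (by
          refine le_trans ?_ hKK
          rw [hKdef]
          have : (0 : ℝ) < 10 ^ 7 := by positivity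
          linarith)
  · have h1' : T0 ≤ TT i := not_lt.mp h1
    by_cases h2 : (G : ℝ) ≤ TT i ^ (δ / 12)
    · -- (b)
      have hGd : (G : ℝ) ≤ TT i ^ δ :=
        h2.trans (Real.rpow_le_rpow_of_exponent_le hTT1 (by linarith))
      obtain ⟨W, hW⟩ : ∃ W : ℝ, W = (10 ^ 7 : ℝ) ^ G.primeFactors.card := ⟨_, rfl⟩
      have hW0 : 0 < W := by rw [hW]; positivity
      have hWK : W ≤ K ^ G.primeFactors.card := by
        rw [hW]; exact pow_le_pow_left₀ (by positivity) hK7 _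
      have hTe : 0 < TT i ^ (δ / 720) := Real.rpow_pos_of_pos hTT0 _
      have hpt : ∀ b ∈ B, SU G b.1 i b.2 ≤ K1 * W * (JB b.2 * U3 G b.1 i b.2) +
          (if nu3 i b.1 ≤ TT i ^ (-(δ / 6)) then
            K2 * TT i ^ (δ / 720) * (JB b.2 * U3 G b.1 i b.2) else 0) +
          (if zz i G b.1 b.2 ≤ 2 ^ 34 * TT i ^ (-(δ / 2)) then
            K2 * TT i ^ (δ / 720) * (JB b.2 * U3 G b.1 i b.2) else 0) := by
        intro b hb
        have q0 := hJU b
        have q1 : 0 ≤ K1 * W * (JB b.2 * U3 G b.1 i b.2) := by positivity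
        have q2 : 0 ≤ K2 * TT i ^ (δ / 720) * (JB b.2 * U3 G b.1 i b.2) := by positivity
        by_cases hMp : Mp i δ b.2
        · have h := hswm i G b.1 b.2 hG h1' hGd (hB b hb) hMp
          rw [← hW] at h
          refine h.trans ?_
          have q3 : 0 ≤ (if nu3 i b.1 ≤ TT i ^ (-(δ / 6)) then
            K2 * TT i ^ (δ / 720) * (JB b.2 * U3 G b.1 i b.2) else 0) := by
            split_ifs
            · exact q2
            · exact le_rfl
          have q4 : 0 ≤ (if zz i G b.1 b.2 ≤ 2 ^ 34 * TT i ^ (-(δ / 2)) then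
            K2 * TT i ^ (δ / 720) * (JB b.2 * U3 G b.1 i b.2) else 0) := by
            split_ifs
            · exact q2
            · exact le_rfl
          linarith
        · have h := hswa i G b.1 b.2 hG (hB b hb)
          refine h.trans ?_
          rcases nmn i G b.1 b.2 δ hδ hG (hB b hb) h2 hMp with h3 | h3
          · rw [if_pos h3]
            have q4 : 0 ≤ (if zz i G b.1 b.2 ≤ 2 ^ 34 * TT i ^ (-(δ / 2)) then
              K2 * TT i ^ (δ / 720) * (JB b.2 * U3 G b.1 i b.2) else 0) := by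
              split_ifs
              · exact q2
              · exact le_rfl
            linarith
          · rw [if_pos h3]
            have q3 : 0 ≤ (if nu3 i b.1 ≤ TT i ^ (-(δ / 6)) then
              K2 * TT i ^ (δ / 720) * (JB b.2 * U3 G b.1 i b.2) else 0) := by
              split_ifs
              · exact q2
              · exact le_rfl
            linarith
      have s1 : ∑ b ∈ B, (if nu3 i b.1 ≤ TT i ^ (-(δ / 6)) then
            K2 * TT i ^ (δ / 720) * (JB b.2 * U3 G b.1 i b.2) else 0) ≤ 2 * K2 * C * F := by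
        rw [← sum_filter, ← mul_sum]
        have h := hsmb i G (TT i ^ (-(δ / 6))) (2 ^ 29) hG (Real.rpow_pos_of_pos hTT0 _)
          (by positivity) (B.filter fun b => nu3 i b.1 ≤ TT i ^ (-(δ / 6)))
          (fun b hb => ⟨hB b (mem_filter.mp hb).1, (mem_filter.mp hb).2,
            hzz b (mem_filter.mp hb).1⟩)
        rw [← hc, ← hF] at h
        have e1 : TT i ^ (δ / 720) * (TT i ^ (-(δ / 6))) ^ (1 / 4 : ℝ) ≤ 1 := by
          rw [← Real.rpow_mul hTT0.le, ← Real.rpow_add hTT0]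
          exact Real.rpow_le_one_of_one_le_of_nonpos hTT1 (by linarith)
        have e2 : 0 < (TT i ^ (-(δ / 6))) ^ (1 / 4 : ℝ) :=
          Real.rpow_pos_of_pos (Real.rpow_pos_of_pos hTT0 _) _
        have e3 : (0 : ℝ) ≤ ((2 : ℝ) ^ 29) ^ (1 / 360 : ℝ) := by positivity
        calc K2 * TT i ^ (δ / 720) * _ ≤ K2 * TT i ^ (δ / 720) *
              (C * ((TT i ^ (-(δ / 6))) ^ (1 / 4 : ℝ) * ((2 : ℝ) ^ 29) ^ (1 / 360 : ℝ)) * F) :=
              mul_le_mul_of_nonneg_left h (by positivity)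
          _ = (K2 * C * F) * ((TT i ^ (δ / 720) * (TT i ^ (-(δ / 6))) ^ (1 / 4 : ℝ)) *
              ((2 : ℝ) ^ 29) ^ (1 / 360 : ℝ)) := by ring
          _ ≤ (K2 * C * F) * (1 * 2) := by
              refine mul_le_mul_of_nonneg_left ?_ (by positivity)
              exact mul_le_mul e1 e29 e3 zero_le_one
          _ = 2 * K2 * C * F := by ring
      have s2 : ∑ b ∈ B, (if zz i G b.1 b.2 ≤ 2 ^ 34 * TT i ^ (-(δ / 2)) then
            K2 * TT i ^ (δ / 720) * (JB b.2 * U3 G b.1 i b.2) else 0) ≤ 2 * K2 * C * F := by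
        rw [← sum_filter, ← mul_sum]
        have hp : 0 < (2 : ℝ) ^ 34 * TT i ^ (-(δ / 2)) :=
          mul_pos (by positivity) (Real.rpow_pos_of_pos hTT0 _)
        have h := hsmb i G 1 (2 ^ 34 * TT i ^ (-(δ / 2))) hG one_pos hp
          (B.filter fun b => zz i G b.1 b.2 ≤ 2 ^ 34 * TT i ^ (-(δ / 2)))
          (fun b hb => ⟨hB b (mem_filter.mp hb).1, hnu b (mem_filter.mp hb).1,
            (mem_filter.mp hb).2⟩)
        rw [← hc, ← hF, Real.one_rpow, one_mul] at h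
        have e1 : TT i ^ (δ / 720) * (2 ^ 34 * TT i ^ (-(δ / 2))) ^ (1 / 360 : ℝ) ≤ 2 := by
          rw [Real.mul_rpow (by positivity) (Real.rpow_pos_of_pos hTT0 _).le,
            ← Real.rpow_mul hTT0.le]
          have : TT i ^ (δ / 720) * TT i ^ (-(δ / 2) * (1 / 360)) = 1 := by
            rw [← Real.rpow_add hTT0]
            have : δ / 720 + -(δ / 2) * (1 / 360) = 0 := by ring
            rw [this, Real.rpow_zero]
          calc TT i ^ (δ / 720) * (((2 : ℝ) ^ 34) ^ (1 / 360 : ℝ) *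
                TT i ^ (-(δ / 2) * (1 / 360)))
              = ((2 : ℝ) ^ 34) ^ (1 / 360 : ℝ) *
                (TT i ^ (δ / 720) * TT i ^ (-(δ / 2) * (1 / 360))) := by ring
            _ ≤ 2 := by rw [this, mul_one]; exact e34
        calc K2 * TT i ^ (δ / 720) * _ ≤ K2 * TT i ^ (δ / 720) *
              (C * (2 ^ 34 * TT i ^ (-(δ / 2))) ^ (1 / 360 : ℝ) * F) :=
              mul_le_mul_of_nonneg_left h (by positivity)
          _ = (K2 * C * F) * (TT i ^ (δ / 720) *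
              (2 ^ 34 * TT i ^ (-(δ / 2))) ^ (1 / 360 : ℝ)) := by ring
          _ ≤ (K2 * C * F) * 2 := mul_le_mul_of_nonneg_left e1 (by positivity)
          _ = 2 * K2 * C * F := by ring
      calc ∑ b ∈ B, SU G b.1 i b.2 ≤ ∑ b ∈ B, (K1 * W * (JB b.2 * U3 G b.1 i b.2) +
          (if nu3 i b.1 ≤ TT i ^ (-(δ / 6)) then
            K2 * TT i ^ (δ / 720) * (JB b.2 * U3 G b.1 i b.2) else 0) +
          (if zz i G b.1 b.2 ≤ 2 ^ 34 * TT i ^ (-(δ / 2)) then
            K2 * TT i ^ (δ / 720) * (JB b.2 * U3 G b.1 i b.2) else 0)) := sum_le_sum hpt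
        _ = K1 * W * ∑ b ∈ B, (JB b.2 * U3 G b.1 i b.2) +
          ∑ b ∈ B, (if nu3 i b.1 ≤ TT i ^ (-(δ / 6)) then
            K2 * TT i ^ (δ / 720) * (JB b.2 * U3 G b.1 i b.2) else 0) +
          ∑ b ∈ B, (if zz i G b.1 b.2 ≤ 2 ^ 34 * TT i ^ (-(δ / 2)) then
            K2 * TT i ^ (δ / 720) * (JB b.2 * U3 G b.1 i b.2) else 0) := by
            rw [sum_add_distrib, sum_add_distrib, mul_sum]
        _ ≤ K1 * W * (2 * C * F) + 2 * K2 * C * F + 2 * K2 * C * F :=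
            add_le_add (add_le_add (mul_le_mul_of_nonneg_left hall (by positivity)) s1) s2
        _ = (2 * K1 * C * W + 4 * K2 * C) * F := by ring
        _ ≤ _ := hfin _ (by
            have w1 : 2 * K1 * C * W ≤ 2 * K1 * C * K ^ G.primeFactors.card :=
              mul_le_mul_of_nonneg_left hWK (by positivity)
            have w2 : 4 * K2 * C ≤ 4 * K2 * C * K ^ G.primeFactors.card :=
              le_mul_of_one_le_right (by positivity) hKw
            have w3 : (2 * K1 + 4 * K2) * C ≤ K := by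
              rw [hKdef]
              have : (0 : ℝ) < 10 ^ 7 := by positivity
              linarith
            calc 2 * K1 * C * W + 4 * K2 * C ≤ 2 * K1 * C * K ^ G.primeFactors.card +
                4 * K2 * C * K ^ G.primeFactors.card := add_le_add w1 w2
              _ = (2 * K1 + 4 * K2) * C * K ^ G.primeFactors.card := by ring
              _ ≤ _ := mul_le_mul_of_nonneg_right w3 (by positivity))
    · -- (c)
      have h2' : TT i ^ (δ / 12) < G := not_le.mp h2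
      have hle : TT i ^ (δ / 720) ≤ (G : ℝ) ^ (1 / 30 : ℝ) := by
        have e : TT i ^ (δ / 720) = (TT i ^ (δ / 12)) ^ (1 / 60 : ℝ) := by
          rw [← Real.rpow_mul hTT0.le]
          congr 1
          ring
        rw [e]
        calc (TT i ^ (δ / 12)) ^ (1 / 60 : ℝ) ≤ (G : ℝ) ^ (1 / 60 : ℝ) :=
              Real.rpow_le_rpow (Real.rpow_pos_of_pos hTT0 _).le h2'.le (by norm_num)
          _ ≤ (G : ℝ) ^ (1 / 30 : ℝ) := Real.rpow_le_rpow_of_exponent_le hGR (by norm_num)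
      have hGF : (G : ℝ) ^ (1 / 30 : ℝ) * F = 2 ^ i * cf G := by
        rw [hF]
        unfold cf
        rw [← hc]
        have : (G : ℝ) ^ (-(29 / 30) : ℝ) = (G : ℝ) ^ (1 / 30 : ℝ) * (G : ℝ)⁻¹ := by
          rw [← Real.rpow_neg_one, ← Real.rpow_add hG0]
          norm_num
        rw [this, div_eq_mul_inv]
        ring
      calc ∑ b ∈ B, SU G b.1 i b.2
          ≤ ∑ b ∈ B, K2 * (G : ℝ) ^ (1 / 30 : ℝ) * (JB b.2 * U3 G b.1 i b.2) := by
            refine sum_le_sum fun b hb => ?_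
            refine (hswa i G b.1 b.2 hG (hB b hb)).trans ?_
            refine mul_le_mul_of_nonneg_right ?_ (hJU b)
            exact mul_le_mul_of_nonneg_left hle hK2.le
        _ = K2 * (G : ℝ) ^ (1 / 30 : ℝ) * ∑ b ∈ B, JB b.2 * U3 G b.1 i b.2 := by rw [mul_sum]
        _ ≤ K2 * (G : ℝ) ^ (1 / 30 : ℝ) * (2 * C * F) :=
            mul_le_mul_of_nonneg_left hall (by positivity)
        _ = (2 * K2 * C) * ((G : ℝ) ^ (1 / 30 : ℝ) * F) := by ring
        _ = (2 * K2 * C) * (2 ^ i * cf G) := by rw [hGF]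
        _ ≤ _ := by
            refine mul_le_mul_of_nonneg_right ?_ (by positivity)
            refine le_trans ?_ hKK
            rw [hKdef]
            have : (0 : ℝ) < 10 ^ 7 := by positivity
            linarith

end Pool.Agent.PPF
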