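import Pool.Agent.PPR.TotC
import Pool.Agent.PPW.DefsJ

/-!
# PPF: the final summation of the second moment theorem `∑ |Cl(K)[3]| ^ 2 ≤ C X`

`Q D0 G p y g N` means: `(p, y, g)` are the reduced integers (content `G`) of a triple of classes of the
imaginary quadratic field with `|D_K| = D0`, with the norms `N`.  The discriminant of the reduced data is
`G ^ 2 D0`.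
Notation: `R = √(2 ^ (i + 1))`, level `i`: `2 ^ i ≤ D0 < 2 ^ (i + 1)`; `r_j = √(2 ^ a_j)`;
`ν = 2 ^ (a1 + a2 + a3) / R ^ 3`; a box `x : Ix = (x1, x2, x3, j, k, l)`: `2 ^ x_m ≤ |y_m| < 2 ^ (x_m + 1)`,
`2 ^ j ≤ |p|`, `2 ^ k ≤ |Δ|`, `τ 2 ^ l ≤ max (|g2| / √N2) (|g3| / √N3) < 2 τ 2 ^ l`, `τ = 1 / 2 ^ (i + 1)`.
-/

set_option autoImplicit false

namespace Pool.Agent.PPF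

open Pool.Agent.SMQ Pool.Agent.PPR Pool.Agent.PPW

/-- the sum of the weight `W_j` over a dyadic box -/
noncomputable def SW (j G : ℕ) (x : Ix) : ℝ :=
  ∑ z ∈ Bx (2 ^ x.2.2.2.1) (2 ^ x.1) (2 ^ x.2.1) (2 ^ x.2.2.1) (2 ^ x.2.2.2.2.1),
    WJ j G z.1 z.2.1 z.2.2.1 z.2.2.2

/-- the averages of the weights over the main boxes (`PPW.avmJ`) -/
def AvM : Prop := ∃ δ K T0 : ℝ, 0 < δ ∧ δ ≤ 1 / 4 ∧ 0 < K ∧ 2 ≤ T0 ∧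
  ∀ T : ℝ, T0 ≤ T → ∀ G : ℕ, 1 ≤ G → (G : ℝ) ≤ T ^ δ →
  ∀ P Y1 Y2 Y3 Z : ℕ, T ^ (1 - δ) ≤ P → (P : ℝ) ≤ T → T ^ (1 - δ) ≤ Y1 → (Y1 : ℝ) ≤ T →
  T ^ (1 - δ) ≤ Y2 → (Y2 : ℝ) ≤ T → T ^ (1 - δ) ≤ Y3 → (Y3 : ℝ) ≤ T →
  T ^ (3 - δ) ≤ Z → ∀ j ∈ ({1, 2, 3} : Finset ℕ),
  ∑ x ∈ Bx P Y1 Y2 Y3 Z, WJ j G x.1 x.2.1 x.2.2.1 x.2.2.2 ≤
    K * (10 ^ 7 : ℝ) ^ G.primeFactors.card * hJ j G * ((P : ℝ) * min (Z : ℝ) (Y1 * Y2 * Y3))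

/-- the averages of the weights over all boxes (`PPW.avaJ`) -/
def AvA : Prop := ∀ ε : ℝ, 0 < ε → ∃ K : ℝ, 0 < K ∧ ∀ T : ℝ, 2 ≤ T → ∀ G : ℕ, 1 ≤ G →
  (G : ℝ) ≤ T →
  ∀ P Y1 Y2 Y3 Z : ℕ, 1 ≤ P → 1 ≤ Y1 → 1 ≤ Y2 → 1 ≤ Y3 → 1 ≤ Z →
  (P : ℝ) ≤ T ^ 8 → (Y1 : ℝ) ≤ T ^ 8 → (Y2 : ℝ) ≤ T ^ 8 → (Y3 : ℝ) ≤ T ^ 8 →
  (Z : ℝ) ≤ T ^ 8 → ∀ j ∈ ({1, 2, 3} : Finset ℕ),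
  ∑ x ∈ Bx P Y1 Y2 Y3 Z, WJ j G x.1 x.2.1 x.2.2.1 x.2.2.2 ≤
    K * T ^ ε * hJa j G * (P * ((Z : ℝ) ^ (4 / 5 : ℝ) *
      (min (Z : ℝ) (Y1 * Y2 * Y3)) ^ (1 / 5 : ℝ)))

/-- the properties of the points -/
structure Hyp (Q : ℕ → ℕ → ℤ → V3 → V3 → ℕ × ℕ × ℕ → Prop) : Prop where
  tri : ∀ (D0 G : ℕ) (p : ℤ) (y g : V3) (N : ℕ × ℕ × ℕ), Q D0 G p y g N →
    ∃ (N4 : ℕ) (u v : V3), Tri (G ^ 2 * D0) G p y g N N4 u v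
  rot : ∀ (D0 G : ℕ) (p : ℤ) (y g : V3) (N : ℕ × ℕ × ℕ), Q D0 G p y g N →
    Q D0 G p (rt y) (rt g) (N.2.1, N.2.2, N.1)

/-- the class bound: for fixed `(G, p, y)` the number of the points `g` of a shell -/
def ClB (Q : ℕ → ℕ → ℤ → V3 → V3 → ℕ × ℕ × ℕ → Prop) (K : ℝ) : Prop :=
  ∀ (G : ℕ) (p : ℤ) (y : V3) (r1 r2 r3 t ph y2h y3h Dh : ℝ), 1 ≤ G → Dy ph p → Dy y2h y.2.1 →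
    Dy y3h y.2.2 → Dy Dh (De p y) → ∀ S : Finset V3, S.Nonempty →
    (∀ g ∈ S, ∃ (D0 : ℕ) (N : ℕ × ℕ × ℕ), Q D0 G p y g N ∧
      Sh r1 r2 r3 t p y.1 y.2.1 y.2.2 g.1 g.2.1 g.2.2 N.1 N.2.1 N.2.2) →
    (S.card : ℝ) ≤ K * (WJ 1 G p y.1 y.2.1 y.2.2 +
      WJ 2 G p y.1 y.2.1 y.2.2 *
        Aa r1 r2 r3 t (min (r1 ^ 2) (min (r2 ^ 2) (r3 ^ 2))) ph y2h y3h Dh +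
      WJ 3 G p y.1 y.2.1 y.2.2 * Bb r1 r2 r3 t ph y2h y3h Dh)

/-- `√(2 ^ n)` -/
noncomputable def ra (n : ℕ) : ℝ := √((2 : ℝ) ^ n)

/-- `1 / 2 ^ (i + 1)` -/
noncomputable def ta (i : ℕ) : ℝ := 1 / 2 ^ (i + 1)

/-- `ν = 2 ^ (a1 + a2 + a3) / R ^ 3` -/
noncomputable def nu3 (i : ℕ) (a : ℕ × ℕ × ℕ) : ℝ := 2 ^ (a.1 + a.2.1 + a.2.2) / ra (i + 1) ^ 3

/-- the box conditions -/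
structure BxP (i G : ℕ) (a : ℕ × ℕ × ℕ) (x : Ix) (D0 : ℕ) (p : ℤ) (y g : V3)
    (N : ℕ × ℕ × ℕ) : Prop where
  d1 : 2 ^ i ≤ D0
  d2 : D0 < 2 ^ (i + 1)
  n1 : 2 ^ a.1 ≤ N.1
  n1' : N.1 < 2 ^ (a.1 + 1)
  n2 : 2 ^ a.2.1 ≤ N.2.1
  n2' : N.2.1 < 2 ^ (a.2.1 + 1)
  n3 : 2 ^ a.2.2 ≤ N.2.2
  n3' : N.2.2 < 2 ^ (a.2.2 + 1)
  y1 : (2 : ℤ) ^ x.1 ≤ |y.1|
  y1' : |y.1| < (2 : ℤ) ^ (x.1 + 1)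
  y2 : (2 : ℤ) ^ x.2.1 ≤ |y.2.1|
  y2' : |y.2.1| < (2 : ℤ) ^ (x.2.1 + 1)
  y3 : (2 : ℤ) ^ x.2.2.1 ≤ |y.2.2|
  y3' : |y.2.2| < (2 : ℤ) ^ (x.2.2.1 + 1)
  p1 : (2 : ℤ) ^ x.2.2.2.1 ≤ |p|
  p1' : |p| < (2 : ℤ) ^ (x.2.2.2.1 + 1)
  e1 : (2 : ℤ) ^ x.2.2.2.2.1 ≤ |De p y|
  e1' : |De p y| < (2 : ℤ) ^ (x.2.2.2.2.1 + 1)
  t1 : ta i * 2 ^ x.2.2.2.2.2 ≤ max (|(g.2.1 : ℝ)| / √(N.2.1 : ℝ)) (|(g.2.2 : ℝ)| / √(N.2.2 : ℝ))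
  t1' : max (|(g.2.1 : ℝ)| / √(N.2.1 : ℝ)) (|(g.2.2 : ℝ)| / √(N.2.2 : ℝ)) <
    2 * (ta i * 2 ^ x.2.2.2.2.2)
  m2 : |(g.1 : ℝ)| / √(N.1 : ℝ) ≤ |(g.2.1 : ℝ)| / √(N.2.1 : ℝ)
  m3 : |(g.1 : ℝ)| / √(N.1 : ℝ) ≤ |(g.2.2 : ℝ)| / √(N.2.2 : ℝ)

/-- `T = 8 · 2 ^ (i / 4)` -/
noncomputable def TT (i : ℕ) : ℝ := 8 * (2 : ℝ) ^ ((i : ℝ) / 4)

/-- the pair `(a, x)` is admissible for the level `i` and the content `G` -/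
structure Ok (i G : ℕ) (a : ℕ × ℕ × ℕ) (x : Ix) : Prop where
  gt : (G : ℝ) ≤ TT i
  a1 : (2 : ℝ) ^ a.1 ≤ ra (i + 1)
  a2 : (2 : ℝ) ^ a.2.1 ≤ ra (i + 1)
  a3 : (2 : ℝ) ^ a.2.2 ≤ ra (i + 1)
  rg : RgI (ra a.1) (ra a.2.1) (ra a.2.2) ((G : ℝ) ^ 2 * 2 ^ i) (ta i) x
  x1 : (2 : ℝ) ^ x.1 ≤ TT i
  x2 : (2 : ℝ) ^ x.2.1 ≤ TT i
  x3 : (2 : ℝ) ^ x.2.2.1 ≤ TT i
  x4 : (2 : ℝ) ^ x.2.2.2.1 ≤ TT i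
  x5 : (2 : ℝ) ^ x.2.2.2.2.1 ≤ TT i ^ 8

/-- `Z(x)` for the pair `(a, x)` -/
noncomputable def zz (i G : ℕ) (a : ℕ × ℕ × ℕ) (x : Ix) : ℝ :=
  ZI (ra a.1) (ra a.2.1) (ra a.2.2) ((G : ℝ) ^ 2 * 2 ^ i) (ta i) x

/-- the main pairs -/
def Mp (i : ℕ) (δ : ℝ) (x : Ix) : Prop :=
  TT i ^ (1 - δ) ≤ (2 : ℝ) ^ x.2.2.2.1 ∧ TT i ^ (1 - δ) ≤ (2 : ℝ) ^ x.1 ∧
    TT i ^ (1 - δ) ≤ (2 : ℝ) ^ x.2.1 ∧ TT i ^ (1 - δ) ≤ (2 : ℝ) ^ x.2.2.1 ∧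
    TT i ^ (3 - δ) ≤ (2 : ℝ) ^ x.2.2.2.2.1

/-- the sum of the class bounds over the `(p, y)` of a box -/
noncomputable def SU (G : ℕ) (a : ℕ × ℕ × ℕ) (i : ℕ) (x : Ix) : ℝ :=
  SW 1 G x + SW 2 G x * JA (ra a.1) (ra a.2.1) (ra a.2.2)
    (min (ra a.1 ^ 2) (min (ra a.2.1 ^ 2) (ra a.2.2 ^ 2))) (ta i) x +
    SW 3 G x * JC (ra a.1) (ra a.2.1) (ra a.2.2) (ta i) x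

/-- the three terms of the bound for a pair -/
noncomputable def U3 (G : ℕ) (a : ℕ × ℕ × ℕ) (i : ℕ) (x : Ix) : ℝ :=
  (G1 G : ℝ) + JA (ra a.1) (ra a.2.1) (ra a.2.2)
    (min (ra a.1 ^ 2) (min (ra a.2.1 ^ 2) (ra a.2.2 ^ 2))) (ta i) x +
    (G1 G : ℝ) ^ (-(2 / 15) : ℝ) * JC (ra a.1) (ra a.2.1) (ra a.2.2) (ta i) x

/-- the factor of the content `G1 ^ (-2/15) G ^ (-29/30)` -/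
noncomputable def cf (G : ℕ) : ℝ := (G1 G : ℝ) ^ (-(2 / 15) : ℝ) * (G : ℝ) ^ (-(29 / 30) : ℝ)

/-- `q = (p, y, g)` is a point of the level `i` whose first index is the smallest one -/
def PL (Q : ℕ → ℕ → ℤ → V3 → V3 → ℕ × ℕ × ℕ → Prop) (i G : ℕ) (q : ℤ × V3 × V3) : Prop :=
  ∃ (D0 : ℕ) (N : ℕ × ℕ × ℕ), 2 ^ i ≤ D0 ∧ D0 < 2 ^ (i + 1) ∧ Q D0 G q.1 q.2.1 q.2.2 N ∧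
    |(q.2.2.1 : ℝ)| / √(N.1 : ℝ) ≤ |(q.2.2.2.1 : ℝ)| / √(N.2.1 : ℝ) ∧
    |(q.2.2.1 : ℝ)| / √(N.1 : ℝ) ≤ |(q.2.2.2.2 : ℝ)| / √(N.2.2 : ℝ)

end Pool.Agent.PPF
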