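import Pool.Agent.PPF.Defs

/-!
# PPF/Dyx: every point of a level is in a dyadic box (difficulty 3)

PROOF of `dyx`.  Take `D0, N` from `PL` and `N4, u, v` from `hQ.tri`; `D = G ^ 2 D0`.
* `g2, g3 ≠ 0`: if `g2 = 0` then `g1 = 0` (minimality of the index 1), so `t1.hi` gives `N1 Δ = 0`, contradiction (`t1.hN`, `hD`);
  the same for `g3`.
* `a_j = Nat.log 2 N_j`, `x_m = Nat.log 2 |y_m|` and so on (`Nat.pow_log_le_self`, `Nat.lt_pow_succ_log_self`; `natAbs`).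
* `w := max (|g2| / √N2) (|g3| / √N3)`; `N2 ^ 2 ≤ D0 < 2 ^ (i + 1)` (field `sN`: `(G N2) ^ 2 ≤ G ^ 2 D0`), so `√N2 ≤ N2 ≤ 2 ^ (i + 1)` and `w ≥ 1 / 2 ^ (i + 1) = ta i`;
  so there is `l` with `2 ^ l ≤ w / ta i < 2 ^ (l + 1)` (`exists_nat_pow_near` or `Nat.log` of the floor).
-/

set_option autoImplicit false

namespace Pool.Agent.PPF

open Pool.Agent.SMQ Pool.Agent.PPR

private theorem dyx_n (N : ℕ) (h : 1 ≤ N) : ∃ n : ℕ, 2 ^ n ≤ N ∧ N < 2 ^ (n + 1) :=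
  ⟨Nat.log 2 N, Nat.pow_log_le_self 2 (by omega), Nat.lt_pow_succ_log_self (by norm_num) N⟩

private theorem dyx_z (z : ℤ) (h : z ≠ 0) : ∃ n : ℕ, (2 : ℤ) ^ n ≤ |z| ∧ |z| < (2 : ℤ) ^ (n + 1) := by
  obtain ⟨n, h1, h2⟩ := dyx_n z.natAbs (Int.natAbs_pos.2 h)
  refine ⟨n, ?_, ?_⟩
  · rw [Int.abs_eq_natAbs]
    exact_mod_cast h1
  · rw [Int.abs_eq_natAbs]
    exact_mod_cast h2

private theorem dyx_w (i G D0 N : ℕ) (hG : 1 ≤ G) (hN : 1 ≤ N) (hD : D0 < 2 ^ (i + 1))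
    (hs : (G * N) ^ 2 ≤ G ^ 2 * D0) (g : ℤ) (hg : g ≠ 0) :
    ta i ≤ |(g : ℝ)| / √(N : ℝ) := by
  have h1 : N ^ 2 ≤ D0 := by
    rw [mul_pow] at hs
    exact Nat.le_of_mul_le_mul_left hs (by positivity)
  have h2 : N ≤ 2 ^ (i + 1) := by nlinarith
  have h3 : (N : ℝ) ≤ 2 ^ (i + 1) := by exact_mod_cast h2
  have h4 : (1 : ℝ) ≤ N := by exact_mod_cast hN
  have h5 : √(N : ℝ) ≤ 2 ^ (i + 1) := by
    refine (Real.sqrt_le_sqrt (show (N : ℝ) ≤ (N : ℝ) ^ 2 by nlinarith)).trans ?_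
    rw [Real.sqrt_sq (by linarith)]
    exact h3
  have h6 : (1 : ℝ) ≤ |(g : ℝ)| := by
    have := Int.one_le_abs hg
    exact_mod_cast this
  have h7 : 0 < √(N : ℝ) := Real.sqrt_pos.2 (by linarith)
  unfold ta
  exact div_le_div₀ (by positivity) h6 h7 h5

theorem dyx (Q : ℕ → ℕ → ℤ → V3 → V3 → ℕ × ℕ × ℕ → Prop) (hQ : Hyp Q) (i G : ℕ)
    (q : ℤ × V3 × V3) (h : PL Q i G q) :
    ∃ (a : ℕ × ℕ × ℕ) (x : Ix) (D0 : ℕ) (N : ℕ × ℕ × ℕ), Q D0 G q.1 q.2.1 q.2.2 N ∧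
      BxP i G a x D0 q.1 q.2.1 q.2.2 N := by
  obtain ⟨D0, N, hd1, hd2, hq, hm2, hm3⟩ := h
  obtain ⟨N4, u, v, T⟩ := hQ.tri D0 G q.1 q.2.1 q.2.2 N hq
  obtain ⟨p, y, g⟩ := q
  simp only at T hq hm2 hm3 ⊢
  obtain ⟨a1, ha1, ha1'⟩ := dyx_n N.1 T.t1.hN
  obtain ⟨a2, ha2, ha2'⟩ := dyx_n N.2.1 T.t2.hN
  obtain ⟨a3, ha3, ha3'⟩ := dyx_n N.2.2 T.t3.hN
  obtain ⟨x1, hx1, hx1'⟩ := dyx_z y.1 T.t1.hy
  obtain ⟨x2, hx2, hx2'⟩ := dyx_z y.2.1 T.t2.hy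
  obtain ⟨x3, hx3, hx3'⟩ := dyx_z y.2.2 T.t3.hy
  obtain ⟨j, hj, hj'⟩ := dyx_z p T.hp
  obtain ⟨k, hk, hk'⟩ := dyx_z (De p y) T.hD
  have hta : 0 < ta i := by unfold ta; positivity
  have hw : ta i ≤ max (|(g.2.1 : ℝ)| / √(N.2.1 : ℝ)) (|(g.2.2 : ℝ)| / √(N.2.2 : ℝ)) := by
    by_cases h2 : g.2.1 = 0
    · by_cases h3 : g.2.2 = 0
      · exfalso
        have h1 : g.1 = 0 := by
          rw [h2] at hm2
          simp only [Int.cast_zero, abs_zero, zero_div] at hm2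
          have hN : 0 < √(N.1 : ℝ) := Real.sqrt_pos.2 (by exact_mod_cast T.t1.hN)
          have h4 : |(g.1 : ℝ)| ≤ 0 := by
            by_contra hcon
            have := div_pos (not_le.1 hcon) hN
            linarith
          have h5 : (g.1 : ℝ) = 0 := abs_nonpos_iff.1 h4
          exact_mod_cast h5
        have h6 := T.t1.hi
        rw [h1, h2] at h6
        have h7 : (N.1 : ℤ) * (y.1 * y.2.1 * y.2.2 - p ^ 3) = 0 := by rw [h6]; ring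
        have h8 : (N.1 : ℤ) ≠ 0 := by have := T.t1.hN; omega
        rcases mul_eq_zero.1 h7 with h9 | h9
        · exact h8 h9
        · exact T.hD h9
      · exact (dyx_w i G D0 N.2.2 T.hG T.t3.hN hd2 T.t3.sN g.2.2 h3).trans (le_max_right _ _)
    · exact (dyx_w i G D0 N.2.1 T.hG T.t2.hN hd2 T.t2.sN g.2.1 h2).trans (le_max_left _ _)
  obtain ⟨l, hl, hl'⟩ := exists_nat_pow_near (x := max (|(g.2.1 : ℝ)| / √(N.2.1 : ℝ))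
    (|(g.2.2 : ℝ)| / √(N.2.2 : ℝ)) / ta i) (y := 2) ((one_le_div hta).2 hw) (by norm_num)
  refine ⟨(a1, a2, a3), (x1, x2, x3, j, k, l), D0, N, hq, ?_⟩
  refine ⟨hd1, hd2, ha1, ha1', ha2, ha2', ha3, ha3', hx1, hx1', hx2, hx2', hx3, hx3', hj, hj',
    hk, hk', ?_, ?_, hm2, hm3⟩
  · rw [le_div_iff₀ hta] at hl
    linarith
  · rw [div_lt_iff₀ hta, pow_succ] at hl'
    linarith

end Pool.Agent.PPF
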