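import Pool.Agent.PPF.Dyx
import Pool.Agent.PPF.Bok

/-!
# PPF/Fib: the number of points of a level, by boxes (difficulty 3)

PROOF of `bcn`.  Let `S'` be the set of the `(p, y)` of the points of `S`.  Every `(p, y) ∈ S'` gives an element
`(p, y1, y2, y3)` of `Bx (2 ^ j) (2 ^ x1) (2 ^ x2) (2 ^ x3) (2 ^ k)` (PPW; `De p y = y1 y2 y3 - p ^ 3`), and for fixed `(p, y)` the number
of the `g` is at most the right side of `ClB` with `r_j = ra a_j`, `t = ta i 2 ^ l`, `ph = 2 ^ j`, `y2h = 2 ^ x2`, `y3h = 2 ^ x3`, `Dh = 2 ^ k` (`bx_sh`; `Dy` from the box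
conditions); there `Aa = JA`, `Bb = JC` by definition, and they do not depend on `(p, y)`.  Sum over `S'` (`Finset.card_eq_sum_card_fiberwise`);
`WJ ≥ 0`, `JA, JC ≥ 0`, so the sum over `S'` is at most the sum over the whole box.
PROOF of `fib`.  Choose for every `q ∈ S` a pair `(a, x)` by `dyx`; `B` is the image; `Ok` by `bx_ok`; the fibre over `(a, x)` satisfies the
hypothesis of `bcn`.
-/

set_option autoImplicit false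

namespace Pool.Agent.PPF

open Finset Pool.Agent.SMQ Pool.Agent.PPR

private theorem fib_WJ_nonneg (j G : ℕ) (p a b c : ℤ) : 0 ≤ Pool.Agent.PPW.WJ j G p a b c := by
  unfold Pool.Agent.PPW.WJ
  refine mul_nonneg (Nat.cast_nonneg _) (Finset.prod_nonneg fun l _ => ?_)
  unfold Pool.Agent.PPW.fj
  split_ifs <;> positivity

private theorem fib_ra (n : ℕ) : 0 ≤ ra n := Real.sqrt_nonneg _

private theorem fib_ta (i : ℕ) : 0 < ta i := by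
  unfold ta
  positivity

private theorem fib_mm {t ph Dh : ℝ} (hp : 0 ≤ ph) (hD : 0 ≤ Dh) : 0 ≤ mm t ph Dh := by
  unfold mm
  exact le_min (sq_nonneg _) (div_nonneg hD hp)

private theorem fib_Lc {U t r yh Dh : ℝ} (hU : 0 ≤ U) (hr : 0 ≤ r) (hy : 0 ≤ yh) (hD : 0 ≤ Dh) :
    0 ≤ Lc U t r yh Dh := by
  unfold Lc
  exact le_min (mul_nonneg hU (sq_nonneg _)) (div_nonneg (mul_nonneg (pow_nonneg hr 3) hD) hy)

private theorem fib_JA (r1 r2 r3 Q τ : ℝ) (h1 : 0 ≤ r1) (h2 : 0 ≤ r2) (h3 : 0 ≤ r3) (hτ : 0 ≤ τ)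
    (x : Ix) : 0 ≤ JA r1 r2 r3 Q τ x := by
  unfold JA Aa
  have hU : 0 ≤ r1 * r2 * r3 := by positivity
  have e1 : 0 ≤ mm (τ * 2 ^ x.2.2.2.2.2) (2 ^ x.2.2.2.1) (2 ^ x.2.2.2.2.1) :=
    fib_mm (by positivity) (by positivity)
  have e2 : 0 ≤ Lc (r1 * r2 * r3) (τ * 2 ^ x.2.2.2.2.2) r2 (2 ^ x.2.1) (2 ^ x.2.2.2.2.1) :=
    fib_Lc hU h2 (by positivity) (by positivity)
  have e3 : 0 ≤ Lc (r1 * r2 * r3) (τ * 2 ^ x.2.2.2.2.2) r3 (2 ^ x.2.2.1) (2 ^ x.2.2.2.2.1) :=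
    fib_Lc hU h3 (by positivity) (by positivity)
  positivity

private theorem fib_JC (r1 r2 r3 τ : ℝ) (h1 : 0 ≤ r1) (h2 : 0 ≤ r2) (h3 : 0 ≤ r3) (hτ : 0 ≤ τ)
    (x : Ix) : 0 ≤ JC r1 r2 r3 τ x := by
  unfold JC Bb
  have hU : 0 ≤ r1 * r2 * r3 := by positivity
  have e1 : 0 ≤ mm (τ * 2 ^ x.2.2.2.2.2) (2 ^ x.2.2.2.1) (2 ^ x.2.2.2.2.1) :=
    fib_mm (by positivity) (by positivity)
  have e2 : 0 ≤ Lc (r1 * r2 * r3) (τ * 2 ^ x.2.2.2.2.2) r2 (2 ^ x.2.1) (2 ^ x.2.2.2.2.1) :=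
    fib_Lc hU h2 (by positivity) (by positivity)
  have e3 : 0 ≤ Lc (r1 * r2 * r3) (τ * 2 ^ x.2.2.2.2.2) r3 (2 ^ x.2.2.1) (2 ^ x.2.2.2.2.1) :=
    fib_Lc hU h3 (by positivity) (by positivity)
  have e4 : 0 ≤ min (Lc (r1 * r2 * r3) (τ * 2 ^ x.2.2.2.2.2) r2 (2 ^ x.2.1) (2 ^ x.2.2.2.2.1))
      (Lc (r1 * r2 * r3) (τ * 2 ^ x.2.2.2.2.2) r3 (2 ^ x.2.2.1) (2 ^ x.2.2.2.2.1)) :=
    le_min e2 e3
  positivity

private theorem fib_dy {n : ℕ} {z : ℤ} (h1 : (2 : ℤ) ^ n ≤ |z|) (h2 : |z| < (2 : ℤ) ^ (n + 1)) :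
    Dy ((2 : ℝ) ^ n) (z : ℝ) := by
  refine ⟨by positivity, ?_, ?_⟩
  · have : ((2 ^ n : ℤ) : ℝ) ≤ ((|z| : ℤ) : ℝ) := by exact_mod_cast h1
    push_cast at this
    exact this
  · have : ((|z| : ℤ) : ℝ) ≤ ((2 ^ (n + 1) : ℤ) : ℝ) := by exact_mod_cast h2.le
    push_cast at this
    rw [pow_succ] at this
    linarith

private theorem fib_lt {n : ℕ} {z : ℤ} (h2 : |z| < (2 : ℤ) ^ (n + 1)) :
    |z| < 2 * ((2 ^ n : ℕ) : ℤ) := by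
  push_cast
  rw [pow_succ] at h2
  linarith

private theorem fib_le {n : ℕ} {z : ℤ} (h1 : (2 : ℤ) ^ n ≤ |z|) :
    ((2 ^ n : ℕ) : ℤ) ≤ |z| := by
  push_cast
  exact h1

theorem bcn (Q : ℕ → ℕ → ℤ → V3 → V3 → ℕ × ℕ × ℕ → Prop) (hQ : Hyp Q) (K : ℝ) (hK : 0 ≤ K) (hc : ClB Q K)
    (i G : ℕ) (hG : 1 ≤ G) (a : ℕ × ℕ × ℕ) (x : Ix) (S : Finset (ℤ × V3 × V3))
    (hS : ∀ q ∈ S, ∃ (D0 : ℕ) (N : ℕ × ℕ × ℕ), Q D0 G q.1 q.2.1 q.2.2 N ∧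
      BxP i G a x D0 q.1 q.2.1 q.2.2 N) :
    (S.card : ℝ) ≤ K * SU G a i x := by
  classical
  set A : ℝ := JA (ra a.1) (ra a.2.1) (ra a.2.2)
    (min (ra a.1 ^ 2) (min (ra a.2.1 ^ 2) (ra a.2.2 ^ 2))) (ta i) x with hA
  set B : ℝ := JC (ra a.1) (ra a.2.1) (ra a.2.2) (ta i) x with hB
  have hA0 : 0 ≤ A := fib_JA _ _ _ _ _ (fib_ra _) (fib_ra _) (fib_ra _) (fib_ta i).le x
  have hB0 : 0 ≤ B := fib_JC _ _ _ _ (fib_ra _) (fib_ra _) (fib_ra _) (fib_ta i).le x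
  set F : ℤ × ℤ × ℤ × ℤ → ℝ := fun z => Pool.Agent.PPW.WJ 1 G z.1 z.2.1 z.2.2.1 z.2.2.2 +
    Pool.Agent.PPW.WJ 2 G z.1 z.2.1 z.2.2.1 z.2.2.2 * A +
    Pool.Agent.PPW.WJ 3 G z.1 z.2.1 z.2.2.1 z.2.2.2 * B with hF
  have hF0 : ∀ z, 0 ≤ F z := by
    intro z
    have w1 := fib_WJ_nonneg 1 G z.1 z.2.1 z.2.2.1 z.2.2.2
    have w2 := fib_WJ_nonneg 2 G z.1 z.2.1 z.2.2.1 z.2.2.2
    have w3 := fib_WJ_nonneg 3 G z.1 z.2.1 z.2.2.1 z.2.2.2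
    rw [hF]
    simp only []
    positivity
  set f : ℤ × V3 × V3 → ℤ × ℤ × ℤ × ℤ := fun q => (q.1, q.2.1) with hf
  -- one fibre
  have h1 : ∀ b ∈ S.image f, ((S.filter (fun q => f q = b)).card : ℝ) ≤ K * F b := by
    intro b hb
    obtain ⟨q, hq, hqb⟩ := Finset.mem_image.mp hb
    obtain ⟨D0, N, hQq, hbx⟩ := hS q hq
    have hb01 : (f q).1 = b.1 := by rw [hqb]
    have hb02 : (f q).2 = b.2 := by rw [hqb]
    have hb1 : q.1 = b.1 := hb01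
    have hb2 : q.2.1 = b.2 := hb02
    have hcard : (S.filter (fun q => f q = b)).card
        = ((S.filter (fun q => f q = b)).image (fun q => q.2.2)).card := by
      rw [Finset.card_image_of_injOn]
      intro q1 h1 q2 h2 h12
      have m1 := (Finset.mem_filter.mp (Finset.mem_coe.mp h1)).2
      have m2 := (Finset.mem_filter.mp (Finset.mem_coe.mp h2)).2
      have m3 := m1.trans m2.symm
      have e01 : (f q1).1 = (f q2).1 := by rw [m3]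
      have e02 : (f q1).2 = (f q2).2 := by rw [m3]
      have e1 : q1.1 = q2.1 := e01
      have e2 : q1.2.1 = q2.2.1 := e02
      exact Prod.ext e1 (Prod.ext e2 h12)
    rw [hcard]
    have h2 := hc G b.1 b.2 (ra a.1) (ra a.2.1) (ra a.2.2) (ta i * 2 ^ x.2.2.2.2.2)
      (2 ^ x.2.2.2.1) (2 ^ x.2.1) (2 ^ x.2.2.1) (2 ^ x.2.2.2.2.1) hG
      (by rw [← hb1]; exact fib_dy hbx.p1 hbx.p1')
      (by rw [← hb2]; exact fib_dy hbx.y2 hbx.y2')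
      (by rw [← hb2]; exact fib_dy hbx.y3 hbx.y3')
      (by rw [← hb1, ← hb2]; exact fib_dy hbx.e1 hbx.e1')
      ((S.filter (fun q => f q = b)).image (fun q => q.2.2))
      ⟨q.2.2, Finset.mem_image.mpr ⟨q, Finset.mem_filter.mpr ⟨hq, hqb⟩, rfl⟩⟩ (by
        intro g hg
        obtain ⟨q', hq', rfl⟩ := Finset.mem_image.mp hg
        obtain ⟨hq'1, hq'2⟩ := Finset.mem_filter.mp hq'
        obtain ⟨D0', N', hQq', hbx'⟩ := hS q' hq'1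
        have hb01' : (f q').1 = b.1 := by rw [hq'2]
        have hb02' : (f q').2 = b.2 := by rw [hq'2]
        have hb1' : q'.1 = b.1 := hb01'
        have hb2' : q'.2.1 = b.2 := hb02'
        have hsh := bx_sh Q hQ i G a x D0' q'.1 q'.2.1 q'.2.2 N' hQq' hbx'
        refine ⟨D0', N', ?_, ?_⟩
        · rw [← hb1', ← hb2']
          exact hQq'
        · rw [← hb1', ← hb2']
          exact hsh)
    exact h2
  -- the image is in the box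
  have h2 : S.image f ⊆ Pool.Agent.PPW.Bx (2 ^ x.2.2.2.1) (2 ^ x.1) (2 ^ x.2.1) (2 ^ x.2.2.1)
      (2 ^ x.2.2.2.2.1) := by
    intro b hb
    obtain ⟨q, hq, rfl⟩ := Finset.mem_image.mp hb
    obtain ⟨D0, N, hQq, hbx⟩ := hS q hq
    rw [Pool.Agent.PPW.mem_Bx]
    exact ⟨⟨fib_le hbx.p1, fib_lt hbx.p1'⟩, ⟨fib_le hbx.y1, fib_lt hbx.y1'⟩,
      ⟨fib_le hbx.y2, fib_lt hbx.y2'⟩, ⟨fib_le hbx.y3, fib_lt hbx.y3'⟩,
      ⟨fib_le hbx.e1, fib_lt hbx.e1'⟩⟩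
  calc (S.card : ℝ) = ∑ b ∈ S.image f, ((S.filter (fun q => f q = b)).card : ℝ) := by
        rw [Finset.card_eq_sum_card_image f S]
        push_cast
        rfl
    _ ≤ ∑ b ∈ S.image f, K * F b := Finset.sum_le_sum h1
    _ ≤ ∑ b ∈ Pool.Agent.PPW.Bx (2 ^ x.2.2.2.1) (2 ^ x.1) (2 ^ x.2.1) (2 ^ x.2.2.1)
        (2 ^ x.2.2.2.2.1), K * F b :=
        Finset.sum_le_sum_of_subset_of_nonneg h2 (fun b _ _ => mul_nonneg hK (hF0 b))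
    _ = K * SU G a i x := by
        rw [← Finset.mul_sum]
        congr 1
        unfold SU SW
        rw [hF, Finset.sum_add_distrib, Finset.sum_add_distrib, Finset.sum_mul, Finset.sum_mul]

theorem fib (Q : ℕ → ℕ → ℤ → V3 → V3 → ℕ × ℕ × ℕ → Prop) (hQ : Hyp Q) (K : ℝ) (hK : 0 ≤ K) (hc : ClB Q K)
    (i G : ℕ) (hG : 1 ≤ G) (S : Finset (ℤ × V3 × V3)) (hS : ∀ q ∈ S, PL Q i G q) :
    ∃ B : Finset ((ℕ × ℕ × ℕ) × Ix), (∀ b ∈ B, Ok i G b.1 b.2) ∧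
      (S.card : ℝ) ≤ K * ∑ b ∈ B, SU G b.1 i b.2 := by
  classical
  have h1 : ∀ q : ℤ × V3 × V3, ∃ b : (ℕ × ℕ × ℕ) × Ix, q ∈ S →
      ∃ (D0 : ℕ) (N : ℕ × ℕ × ℕ), Q D0 G q.1 q.2.1 q.2.2 N ∧
        BxP i G b.1 b.2 D0 q.1 q.2.1 q.2.2 N := by
    intro q
    by_cases hq : q ∈ S
    · obtain ⟨a, x, D0, N, h2, h3⟩ := dyx Q hQ i G q (hS q hq)
      exact ⟨(a, x), fun _ => ⟨D0, N, h2, h3⟩⟩
    · exact ⟨((0, 0, 0), (0, 0, 0, 0, 0, 0)), fun h => absurd h hq⟩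
  choose b hb using h1
  refine ⟨S.image b, ?_, ?_⟩
  · intro c hcm
    obtain ⟨q, hq, rfl⟩ := Finset.mem_image.mp hcm
    obtain ⟨D0, N, h2, h3⟩ := hb q hq
    exact bx_ok Q hQ i G (b q).1 (b q).2 D0 q.1 q.2.1 q.2.2 N hG h2 h3
  · rw [Finset.card_eq_sum_card_image b S, Finset.mul_sum]
    push_cast
    refine Finset.sum_le_sum fun c hcm => ?_
    refine bcn Q hQ K hK hc i G hG c.1 c.2 _ ?_
    intro q hq
    obtain ⟨hq1, hq2⟩ := Finset.mem_filter.mp hq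
    obtain ⟨D0, N, h2, h3⟩ := hb q hq1
    rw [hq2] at h3
    exact ⟨D0, N, h2, h3⟩

end Pool.Agent.PPF
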