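import Pool.Agent.PPF.Defs

/-!
# PPF/Gsa: the squarefree part `G1` (difficulty 3)

`G1p G` = the primes `l ≥ 5` with `G.factorization l = 1`, `G1 G = ∏ l ∈ G1p G, l` (PPW/DefsJ).
PROOF of `g1_mul`.  For coprime `m, n ≠ 0`: `G1p (m * n) = G1p m ∪ G1p n`, disjoint (`Nat.Coprime.primeFactors_mul` or
`Nat.primeFactors_mul`; for a prime `l ∣ m` one has `l ∤ n`, so `n.factorization l = 0` and `Nat.factorization_mul`).
PROOF of `g1_pp`.  `primeFactors (l ^ e) = {l}` (`Nat.primeFactors_prime_pow`), `(l ^ e).factorization l = e`.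
PROOF of `g1_le`.  `G1 G` is a product over a subset of the prime factors, so it divides `∏ l ∈ G.primeFactors, l ∣ G`
(`Nat.prod_primeFactors_dvd`, `Finset.prod_dvd_prod_of_subset`).
-/

set_option autoImplicit false

namespace Pool.Agent.PPF

open Finset

private theorem gsa_union (m n : ℕ) (hm : m ≠ 0) (hn : n ≠ 0) (h : Nat.Coprime m n) :
    PPW.G1p (m * n) = PPW.G1p m ∪ PPW.G1p n := by
  ext l
  simp only [PPW.G1p, Finset.mem_union, Finset.mem_filter, Nat.primeFactors_mul hm hn,
    Nat.factorization_mul hm hn, Finsupp.add_apply]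
  constructor
  · rintro ⟨hl | hl, h5, hf⟩
    · left
      have hnl : n.factorization l = 0 := by
        apply Nat.factorization_eq_zero_of_not_dvd
        intro hd
        have h1 : l ∣ Nat.gcd m n := Nat.dvd_gcd (Nat.dvd_of_mem_primeFactors hl) hd
        rw [h.gcd_eq_one] at h1
        exact (Nat.prime_of_mem_primeFactors hl).one_lt.ne' (Nat.dvd_one.mp h1)
      exact ⟨hl, h5, by omega⟩
    · right
      have hml : m.factorization l = 0 := by
        apply Nat.factorization_eq_zero_of_not_dvd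
        intro hd
        have h1 : l ∣ Nat.gcd m n := Nat.dvd_gcd hd (Nat.dvd_of_mem_primeFactors hl)
        rw [h.gcd_eq_one] at h1
        exact (Nat.prime_of_mem_primeFactors hl).one_lt.ne' (Nat.dvd_one.mp h1)
      exact ⟨hl, h5, by omega⟩
  · rintro (⟨hl, h5, hf⟩ | ⟨hl, h5, hf⟩)
    · have hnl : n.factorization l = 0 := by
        apply Nat.factorization_eq_zero_of_not_dvd
        intro hd
        have h1 : l ∣ Nat.gcd m n := Nat.dvd_gcd (Nat.dvd_of_mem_primeFactors hl) hd
        rw [h.gcd_eq_one] at h1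
        exact (Nat.prime_of_mem_primeFactors hl).one_lt.ne' (Nat.dvd_one.mp h1)
      exact ⟨Or.inl hl, h5, by omega⟩
    · have hml : m.factorization l = 0 := by
        apply Nat.factorization_eq_zero_of_not_dvd
        intro hd
        have h1 : l ∣ Nat.gcd m n := Nat.dvd_gcd hd (Nat.dvd_of_mem_primeFactors hl)
        rw [h.gcd_eq_one] at h1
        exact (Nat.prime_of_mem_primeFactors hl).one_lt.ne' (Nat.dvd_one.mp h1)
      exact ⟨Or.inr hl, h5, by omega⟩

theorem g1_mul (m n : ℕ) (hm : m ≠ 0) (hn : n ≠ 0) (h : Nat.Coprime m n) :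
    PPW.G1 (m * n) = PPW.G1 m * PPW.G1 n := by
  unfold PPW.G1
  rw [gsa_union m n hm hn h]
  apply Finset.prod_union
  rw [Finset.disjoint_left]
  intro l hl hl'
  simp only [PPW.G1p, Finset.mem_filter] at hl hl'
  have h1 : l ∣ Nat.gcd m n := Nat.dvd_gcd (Nat.dvd_of_mem_primeFactors hl.1)
    (Nat.dvd_of_mem_primeFactors hl'.1)
  rw [h.gcd_eq_one] at h1
  exact (Nat.prime_of_mem_primeFactors hl.1).one_lt.ne' (Nat.dvd_one.mp h1)

theorem g1_pp (l e : ℕ) (hl : l.Prime) (he : 1 ≤ e) :
    PPW.G1 (l ^ e) = if 5 ≤ l ∧ e = 1 then l else 1 := by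
  unfold PPW.G1 PPW.G1p
  rw [Nat.primeFactors_prime_pow (by omega) hl]
  have hf : (l ^ e).factorization l = e := by
    rw [hl.factorization_pow]; simp
  rw [Finset.filter_singleton, hf]
  split_ifs <;> simp

theorem g1_le (G : ℕ) (hG : 1 ≤ G) : 1 ≤ PPW.G1 G ∧ PPW.G1 G ≤ G := by
  constructor
  · unfold PPW.G1
    apply Nat.one_le_iff_ne_zero.mpr
    rw [Finset.prod_ne_zero_iff]
    intro l hl
    simp only [PPW.G1p, Finset.mem_filter] at hl
    exact (Nat.prime_of_mem_primeFactors hl.1).ne_zero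
  · apply Nat.le_of_dvd hG
    unfold PPW.G1
    exact dvd_trans (Finset.prod_dvd_prod_of_subset _ _ _ (Finset.filter_subset _ _))
      (Nat.prod_primeFactors_dvd G)

end Pool.Agent.PPF
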