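import Pool.Agent.PPF.Bsm
import Pool.Agent.PPF.Fib

/-!
# PPF/Lev: the number of points of a level with given content (difficulty 2)

PROOF of `lev`.  `fib` and `bsum` (constant `max K0 1 * K`).
-/

set_option autoImplicit false

namespace Pool.Agent.PPF

open Finset Pool.Agent.SMQ

theorem lev (Q : ℕ → ℕ → ℤ → V3 → V3 → ℕ × ℕ × ℕ → Prop) (hQ : Hyp Q) (K0 : ℝ) (hK0 : 0 ≤ K0) (hc : ClB Q K0)
    (hm : AvM) (ha : AvA) : ∃ K : ℝ, 1 ≤ K ∧ ∀ i G : ℕ, 1 ≤ G →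
    ∀ S : Finset (ℤ × V3 × V3), (∀ q ∈ S, PL Q i G q) →
    (S.card : ℝ) ≤ K * K ^ G.primeFactors.card * (2 ^ i * cf G) := by
  obtain ⟨K, hK, hb⟩ := bsum hm ha
  have hM1 : (1 : ℝ) ≤ max K0 1 := le_max_right _ _
  have hM0 : K0 ≤ max K0 1 := le_max_left _ _
  have hMK : K ≤ max K0 1 * K := by nlinarith
  refine ⟨max K0 1 * K, by nlinarith, ?_⟩
  intro i G hG S hS
  obtain ⟨B, hB, hle⟩ := fib Q hQ K0 hK0 hc i G hG S hS
  have h1 := hb i G hG B hB
  have hcf : 0 ≤ 2 ^ i * cf G := by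
    unfold cf
    positivity
  have h2 : K ^ G.primeFactors.card ≤ (max K0 1 * K) ^ G.primeFactors.card :=
    pow_le_pow_left₀ (by linarith) hMK _
  have hpow : 0 ≤ K ^ G.primeFactors.card := pow_nonneg (by linarith) _
  calc (S.card : ℝ) ≤ K0 * ∑ b ∈ B, SU G b.1 i b.2 := hle
    _ ≤ K0 * (K * K ^ G.primeFactors.card * (2 ^ i * cf G)) := mul_le_mul_of_nonneg_left h1 hK0
    _ = (K0 * K) * K ^ G.primeFactors.card * (2 ^ i * cf G) := by ring
    _ ≤ (max K0 1 * K) * (max K0 1 * K) ^ G.primeFactors.card * (2 ^ i * cf G) := by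
      apply mul_le_mul_of_nonneg_right _ hcf
      apply mul_le_mul _ h2 hpow (by nlinarith)
      exact mul_le_mul_of_nonneg_right hM0 (by linarith)

end Pool.Agent.PPF
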