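import Pool.Agent.PPF.Defs

/-!
# PPF/SmA: the three factors for fixed `a` (difficulty 3)

Notation: `R = ra (i + 1)`, `R ^ 2 = 2 ^ (i + 1)`; `U = ra a1 ra a2 ra a3`, `U ^ 2 = 2 ^ (a1 + a2 + a3) = ν R ^ 3`; `d = G ^ 2 2 ^ i`,
`√d = G √(2 ^ i)`; `ν_j = 2 ^ a_j / R ≤ 1`, so `0 < ν ≤ 1` and `ν ≤ ν_j`.
PROOFS.
`u1`: `(U ^ 2 / d) ^ 2 = ν ^ 2 R ^ 6 / (G ^ 4 2 ^ (2 i)) = ν ^ 2 8 * 2 ^ i / G ^ 4 ≤ 8 ν 2 ^ i / G ^ 4`.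
`u2`: `m = min (ra a1 ^ 2) .. = min 2 ^ a_j` is one of the `2 ^ a_j = R ν_j ≥ R ν`.  `U ^ 3 / (d √m)`: its square is
`U ^ 6 / (d ^ 2 m) ≤ ν ^ 3 R ^ 9 / (G ^ 4 2 ^ (2 i) R ν) = ν ^ 2 R ^ 8 / (G ^ 4 2 ^ (2 i)) = (4 ν 2 ^ i / G ^ 2) ^ 2`.
`u3`: `U ^ 2 / √d = ν R ^ 3 / (G √(2 ^ i))`, `R ^ 3 = 2 ^ (i + 1) √2 √(2 ^ i)`, so it is `2 √2 ν 2 ^ i / G ≤ 3 ν 2 ^ i / G`.
-/

set_option autoImplicit false

namespace Pool.Agent.PPF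

private theorem sma_sq (n : ℕ) : ra n ^ 2 = (2 : ℝ) ^ n := by
  unfold ra
  exact Real.sq_sqrt (by positivity)

private theorem sma_pos (n : ℕ) : 0 < ra n := by
  unfold ra
  exact Real.sqrt_pos.2 (by positivity)

private theorem sma_I (i : ℕ) : (2 : ℝ) ^ i = ra (i + 1) ^ 2 / 2 := by
  rw [sma_sq, pow_succ]
  ring

private theorem sma_nu (i : ℕ) (a : ℕ × ℕ × ℕ) : nu3 i a =
    (ra a.1 * ra a.2.1 * ra a.2.2) ^ 2 / ra (i + 1) ^ 3 := by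
  unfold nu3
  rw [mul_pow, mul_pow, sma_sq, sma_sq, sma_sq, pow_add, pow_add]

private theorem sma_P (i : ℕ) (a : ℕ × ℕ × ℕ) (h1 : (2 : ℝ) ^ a.1 ≤ ra (i + 1))
    (h2 : (2 : ℝ) ^ a.2.1 ≤ ra (i + 1)) (h3 : (2 : ℝ) ^ a.2.2 ≤ ra (i + 1)) :
    (ra a.1 * ra a.2.1 * ra a.2.2) ^ 2 ≤ ra (i + 1) ^ 3 := by
  have hR := sma_pos (i + 1)
  rw [mul_pow, mul_pow, sma_sq, sma_sq, sma_sq]
  calc (2 : ℝ) ^ a.1 * 2 ^ a.2.1 * 2 ^ a.2.2 ≤ ra (i + 1) * ra (i + 1) * ra (i + 1) := by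
        gcongr
    _ = ra (i + 1) ^ 3 := by ring

theorem u1 (i G : ℕ) (a : ℕ × ℕ × ℕ) (hG : 1 ≤ G) (h1 : (2 : ℝ) ^ a.1 ≤ ra (i + 1))
    (h2 : (2 : ℝ) ^ a.2.1 ≤ ra (i + 1)) (h3 : (2 : ℝ) ^ a.2.2 ≤ ra (i + 1)) :
    ((ra a.1 * ra a.2.1 * ra a.2.2) ^ 2 / ((G : ℝ) ^ 2 * 2 ^ i)) ^ 2 ≤
      8 * (nu3 i a * 2 ^ i / (G : ℝ) ^ 4) := by
  have hR := sma_pos (i + 1)
  have hP := sma_P i a h1 h2 h3
  have hG0 : (0 : ℝ) < G := by exact_mod_cast hG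
  have hP0 : 0 ≤ (ra a.1 * ra a.2.1 * ra a.2.2) ^ 2 := sq_nonneg _
  rw [sma_nu, sma_I]
  set P := (ra a.1 * ra a.2.1 * ra a.2.2) ^ 2
  set R := ra (i + 1)
  have e1 : (P / ((G : ℝ) ^ 2 * (R ^ 2 / 2))) ^ 2 = 4 * P * P / ((G : ℝ) ^ 4 * R ^ 4) := by
    field_simp
    ring
  have e2 : 8 * (P / R ^ 3 * (R ^ 2 / 2) / (G : ℝ) ^ 4) = 4 * P * R ^ 3 / ((G : ℝ) ^ 4 * R ^ 4) := by
    field_simp
    ring
  rw [e1, e2]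
  gcongr

theorem u2 (i G : ℕ) (a : ℕ × ℕ × ℕ) (hG : 1 ≤ G) (h1 : (2 : ℝ) ^ a.1 ≤ ra (i + 1))
    (h2 : (2 : ℝ) ^ a.2.1 ≤ ra (i + 1)) (h3 : (2 : ℝ) ^ a.2.2 ≤ ra (i + 1)) :
    (ra a.1 * ra a.2.1 * ra a.2.2) ^ 3 / (((G : ℝ) ^ 2 * 2 ^ i) *
      √(min (ra a.1 ^ 2) (min (ra a.2.1 ^ 2) (ra a.2.2 ^ 2)))) ≤
      4 * (nu3 i a * 2 ^ i / (G : ℝ) ^ 2) := by
  have hR := sma_pos (i + 1)
  have hG0 : (0 : ℝ) < G := by exact_mod_cast hG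
  have ha := sma_pos a.1
  have hb := sma_pos a.2.1
  have hc := sma_pos a.2.2
  have hm0 : 0 < min (ra a.1 ^ 2) (min (ra a.2.1 ^ 2) (ra a.2.2 ^ 2)) :=
    lt_min (by positivity) (lt_min (by positivity) (by positivity))
  have hPm : (ra a.1 * ra a.2.1 * ra a.2.2) ^ 2 ≤
      ra (i + 1) ^ 2 * min (ra a.1 ^ 2) (min (ra a.2.1 ^ 2) (ra a.2.2 ^ 2)) := by
    rw [← sma_sq] at h1 h2 h3
    rw [mul_pow, mul_pow]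
    have hx : 0 < ra a.1 ^ 2 := by positivity
    have hy : 0 < ra a.2.1 ^ 2 := by positivity
    have hz : 0 < ra a.2.2 ^ 2 := by positivity
    set X := ra a.1 ^ 2
    set Y := ra a.2.1 ^ 2
    set Z := ra a.2.2 ^ 2
    set R := ra (i + 1)
    rcases min_choice X (min Y Z) with h | h
    · rw [h]
      calc X * Y * Z = Y * Z * X := by ring
        _ ≤ R * R * X := by gcongr
        _ = R ^ 2 * X := by ring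
    · rw [h]
      rcases min_choice Y Z with h' | h'
      · rw [h']
        calc X * Y * Z = X * Z * Y := by ring
          _ ≤ R * R * Y := by gcongr
          _ = R ^ 2 * Y := by ring
      · rw [h']
        calc X * Y * Z ≤ R * R * Z := by gcongr
          _ = R ^ 2 * Z := by ring
  rw [sma_nu, sma_I]
  set m := min (ra a.1 ^ 2) (min (ra a.2.1 ^ 2) (ra a.2.2 ^ 2))
  have hU : 0 < ra a.1 * ra a.2.1 * ra a.2.2 := by positivity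
  set U := ra a.1 * ra a.2.1 * ra a.2.2
  set R := ra (i + 1)
  have hs : 0 < √m := Real.sqrt_pos.2 hm0
  have hU2 : U ≤ R * √m := by
    apply le_of_sq_le_sq _ (by positivity)
    rw [mul_pow R, Real.sq_sqrt hm0.le]
    exact hPm
  have e1 : U ^ 3 / (((G : ℝ) ^ 2 * (R ^ 2 / 2)) * √m) =
      2 * U ^ 2 / ((G : ℝ) ^ 2 * R ^ 2 * √m) * U := by
    field_simp
  have e2 : 4 * (U ^ 2 / R ^ 3 * (R ^ 2 / 2) / (G : ℝ) ^ 2) =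
      2 * U ^ 2 / ((G : ℝ) ^ 2 * R ^ 2 * √m) * (R * √m) := by
    field_simp
    ring
  rw [e1, e2]
  exact mul_le_mul_of_nonneg_left hU2 (by positivity)

theorem u3 (i G : ℕ) (a : ℕ × ℕ × ℕ) (hG : 1 ≤ G) :
    (ra a.1 * ra a.2.1 * ra a.2.2) ^ 2 / √((G : ℝ) ^ 2 * 2 ^ i) ≤ 3 * (nu3 i a * 2 ^ i / G) := by
  have hR := sma_pos (i + 1)
  have hG0 : (0 : ℝ) < G := by exact_mod_cast hG
  have hP0 : 0 ≤ (ra a.1 * ra a.2.1 * ra a.2.2) ^ 2 := sq_nonneg _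
  rw [sma_nu, sma_I]
  set P := (ra a.1 * ra a.2.1 * ra a.2.2) ^ 2
  set R := ra (i + 1)
  have h1 : (2 / 3 : ℝ) * (G * R) ≤ √((G : ℝ) ^ 2 * (R ^ 2 / 2)) := by
    apply Real.le_sqrt_of_sq_le
    have : 0 ≤ ((G : ℝ) * R) ^ 2 := sq_nonneg _
    nlinarith
  have h2 : 0 < (2 / 3 : ℝ) * (G * R) := by positivity
  calc P / √((G : ℝ) ^ 2 * (R ^ 2 / 2)) ≤ P / ((2 / 3 : ℝ) * (G * R)) :=
        div_le_div_of_nonneg_left hP0 h2 h1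
    _ = 3 * (P / R ^ 3 * (R ^ 2 / 2) / G) := by
        field_simp

theorem nu_le (i : ℕ) (a : ℕ × ℕ × ℕ) (h1 : (2 : ℝ) ^ a.1 ≤ ra (i + 1))
    (h2 : (2 : ℝ) ^ a.2.1 ≤ ra (i + 1)) (h3 : (2 : ℝ) ^ a.2.2 ≤ ra (i + 1)) :
    0 < nu3 i a ∧ nu3 i a ≤ 1 := by
  have hR := sma_pos (i + 1)
  have hP := sma_P i a h1 h2 h3
  have ha := sma_pos a.1
  have hb := sma_pos a.2.1
  have hc := sma_pos a.2.2
  rw [sma_nu]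
  refine ⟨by positivity, ?_⟩
  rw [div_le_one (by positivity)]
  exact hP

end Pool.Agent.PPF
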