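import Pool.Agent.PPF.Asm
import Pool.Agent.PPF.SmA
import Pool.Agent.PPF.Gsa

/-!
# PPF/SmB: the sum over the pairs `(a, x)` (difficulty 4)

PROOF.  Let `A` be the image of `B` under the first projection and `T_a` the set of the `x` with `(a, x) ∈ B`.
For `a ∈ A` apply `PPR.totC` with `r_j = ra a_j`, `d = G ^ 2 2 ^ i`, `Q = min (ra a1 ^ 2) ..`, `τ = ta i`, `δ = δ2`, `T = T_a`
(all positive): the three sums `∑ JB`, `∑ JB JA`, `∑ JB JC` are at most `C δ2 ^ (1/360)` times the three left sides of `u1, u2, u3`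
(`a1, a2, a3` of `Ok`).  So, as `JB U3 = G1 JB + JB JA + G1 ^ (-2/15) JB JC`, with `g = G1 ^ (-2/15)`,
`∑_{x ∈ T_a} JB U3 ≤ C δ2 ^ (1/360) ν(a) 2 ^ i (8 G1 / G ^ 4 + 4 / G ^ 2 + 3 g / G) ≤ 15 C δ2 ^ (1/360) ν(a) 2 ^ i g / G`
because `1 ≤ G1 ≤ G` (`g1_le`), so `G1 ≤ G ^ 3 g` and `1 ≤ G g`.  Sum over `a ∈ A` with `asm` (`Ok`: `a1, a2, a3`; `0 < nu3`).
(`Finset.sum_fiberwise_of_maps_to` or `Finset.sum_sigma'`.)
-/

set_option autoImplicit false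

namespace Pool.Agent.PPF

open Finset Pool.Agent.PPR

private theorem SmB_ra (n : ℕ) : 0 < ra n := Real.sqrt_pos.mpr (by positivity)

private theorem SmB_g (G : ℕ) (hG : 1 ≤ G) :
    (PPW.G1 G : ℝ) / (G : ℝ) ^ 4 ≤ (PPW.G1 G : ℝ) ^ (-(2 / 15) : ℝ) / G ∧
      1 / (G : ℝ) ^ 2 ≤ (PPW.G1 G : ℝ) ^ (-(2 / 15) : ℝ) / G := by
  obtain ⟨h1, h2⟩ := g1_le G hG
  have k0 : (1 : ℝ) ≤ G := by exact_mod_cast hG
  have k1 : (1 : ℝ) ≤ (PPW.G1 G : ℝ) := by exact_mod_cast h1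
  have k2 : (PPW.G1 G : ℝ) ≤ G := by exact_mod_cast h2
  obtain ⟨x, hx⟩ : ∃ x, x = (PPW.G1 G : ℝ) := ⟨_, rfl⟩
  rw [← hx] at k1 k2 ⊢
  have hx0 : 0 < x := by linarith
  have hG0 : (0 : ℝ) < G := by linarith
  have h3 : x⁻¹ ≤ x ^ (-(2 / 15) : ℝ) := by
    rw [← Real.rpow_neg_one]
    exact Real.rpow_le_rpow_of_exponent_le k1 (by norm_num)
  have h4 : 1 / (G : ℝ) ≤ x ^ (-(2 / 15) : ℝ) := by
    refine le_trans ?_ h3
    rw [one_div]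
    exact inv_anti₀ hx0 k2
  have h5 : 1 / (G : ℝ) ^ 2 ≤ x ^ (-(2 / 15) : ℝ) / G := by
    calc 1 / (G : ℝ) ^ 2 = 1 / (G : ℝ) / G := by field_simp
      _ ≤ _ := div_le_div_of_nonneg_right h4 hG0.le
  refine ⟨le_trans ?_ h5, h5⟩
  rw [div_le_div_iff₀ (by positivity) (by positivity)]
  have h6 : (G : ℝ) ^ 2 * G ≤ G ^ 4 := by
    have : (G : ℝ) ^ 2 * G * 1 ≤ (G : ℝ) ^ 2 * G * G :=
      mul_le_mul_of_nonneg_left k0 (by positivity)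
    calc (G : ℝ) ^ 2 * G = (G : ℝ) ^ 2 * G * 1 := by ring
      _ ≤ (G : ℝ) ^ 2 * G * G := this
      _ = _ := by ring
  calc x * (G : ℝ) ^ 2 ≤ G * (G : ℝ) ^ 2 := mul_le_mul_of_nonneg_right k2 (by positivity)
    _ = (G : ℝ) ^ 2 * G := by ring
    _ ≤ _ := h6
    _ = _ := by ring

theorem smb : ∃ C : ℝ, 0 < C ∧ ∀ (i G : ℕ) (δ1 δ2 : ℝ), 1 ≤ G → 0 < δ1 → 0 < δ2 →
    ∀ B : Finset ((ℕ × ℕ × ℕ) × Ix), (∀ b ∈ B, Ok i G b.1 b.2 ∧ nu3 i b.1 ≤ δ1 ∧ zz i G b.1 b.2 ≤ δ2) →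
    ∑ b ∈ B, JB b.2 * U3 G b.1 i b.2 ≤
      C * (δ1 ^ (1 / 4 : ℝ) * δ2 ^ (1 / 360 : ℝ)) *
        (2 ^ i * ((PPW.G1 G : ℝ) ^ (-(2 / 15) : ℝ) / G)) := by
  classical
  obtain ⟨C1, hC1, k1⟩ := asm
  obtain ⟨C2, hC2, k2⟩ := totC
  refine ⟨C1 * (15 * C2), by positivity, ?_⟩
  intro i G δ1 δ2 hG hδ1 hδ2 B hB
  have k0 : (1 : ℝ) ≤ G := by exact_mod_cast hG
  have hG0 : (0 : ℝ) < G := by linarith
  obtain ⟨gg, hgg⟩ : ∃ gg, gg = (PPW.G1 G : ℝ) ^ (-(2 / 15) : ℝ) := ⟨_, rfl⟩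
  have hgp : 0 ≤ gg := by rw [hgg]; positivity
  obtain ⟨m1, m2⟩ := SmB_g G hG
  rw [← hgg] at m1 m2
  rw [← hgg]
  obtain ⟨E, hE⟩ : ∃ E, E = δ2 ^ (1 / 360 : ℝ) := ⟨_, rfl⟩
  have hE0 : 0 ≤ E := by rw [hE]; positivity
  have key : ∀ a ∈ B.image Prod.fst, ∑ b ∈ B with b.1 = a, JB b.2 * U3 G b.1 i b.2 ≤
      15 * C2 * (E * (2 ^ i * (gg / G))) * nu3 i a := by
    intro a ha
    obtain ⟨b0, hb0, hb0a⟩ := Finset.mem_image.mp ha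
    have ok0 := (hB b0 hb0).1
    rw [hb0a] at ok0
    have e1 : ∑ b ∈ B with b.1 = a, JB b.2 * U3 G b.1 i b.2 =
        ∑ x ∈ (B.filter (fun b => b.1 = a)).image Prod.snd, JB x * U3 G a i x := by
      rw [Finset.sum_image]
      · refine Finset.sum_congr rfl fun b hb => ?_
        rw [(Finset.mem_filter.mp hb).2]
      · intro b hb b' hb' he
        rw [Finset.mem_coe, Finset.mem_filter] at hb hb'
        exact Prod.ext (hb.2.trans hb'.2.symm) he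
    rw [e1]
    obtain ⟨T, hT⟩ : ∃ T, T = (B.filter (fun b => b.1 = a)).image Prod.snd := ⟨_, rfl⟩
    rw [← hT]
    have hTm : ∀ x ∈ T, (a, x) ∈ B := by
      intro x hx
      rw [hT] at hx
      obtain ⟨b, hb, hbx⟩ := Finset.mem_image.mp hx
      rw [Finset.mem_filter] at hb
      have : b = (a, x) := Prod.ext hb.2 hbx
      rw [← this]
      exact hb.1
    have hd : (0 : ℝ) < (G : ℝ) ^ 2 * 2 ^ i := by positivity
    have hQ : 0 < min (ra a.1 ^ 2) (min (ra a.2.1 ^ 2) (ra a.2.2 ^ 2)) :=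
      lt_min (pow_pos (SmB_ra _) _) (lt_min (pow_pos (SmB_ra _) _) (pow_pos (SmB_ra _) _))
    have hτ : 0 < ta i := by unfold ta; positivity
    obtain ⟨s1, s2, s3⟩ := k2 (ra a.1) (ra a.2.1) (ra a.2.2) ((G : ℝ) ^ 2 * 2 ^ i)
      (min (ra a.1 ^ 2) (min (ra a.2.1 ^ 2) (ra a.2.2 ^ 2))) (ta i) δ2 (SmB_ra _) (SmB_ra _)
      (SmB_ra _) hd hQ hτ hδ2 T (fun x hx => ⟨(hB _ (hTm x hx)).1.rg, (hB _ (hTm x hx)).2.2⟩)
    rw [← hE] at s1 s2 s3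
    have v1 := u1 i G a hG ok0.a1 ok0.a2 ok0.a3
    have v2 := u2 i G a hG ok0.a1 ok0.a2 ok0.a3
    have v3 := u3 i G a hG
    have hν := (nu_le i a ok0.a1 ok0.a2 ok0.a3).1
    obtain ⟨ν, hν'⟩ : ∃ ν, ν = nu3 i a := ⟨_, rfl⟩
    rw [← hν'] at v1 v2 v3 hν ⊢
    have w1 : ∑ x ∈ T, JB x ≤ C2 * (E * (8 * (ν * 2 ^ i / (G : ℝ) ^ 4))) :=
      s1.trans (mul_le_mul_of_nonneg_left (mul_le_mul_of_nonneg_left v1 hE0) hC2.le)
    have w2 := s2.trans (mul_le_mul_of_nonneg_left (mul_le_mul_of_nonneg_left v2 hE0) hC2.le)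
    have w3 := s3.trans (mul_le_mul_of_nonneg_left (mul_le_mul_of_nonneg_left v3 hE0) hC2.le)
    have e2 : ∑ x ∈ T, JB x * U3 G a i x = (PPW.G1 G : ℝ) * ∑ x ∈ T, JB x +
        ∑ x ∈ T, JB x * JA (ra a.1) (ra a.2.1) (ra a.2.2)
          (min (ra a.1 ^ 2) (min (ra a.2.1 ^ 2) (ra a.2.2 ^ 2))) (ta i) x +
        gg * ∑ x ∈ T, JB x * JC (ra a.1) (ra a.2.1) (ra a.2.2) (ta i) x := by
      rw [Finset.mul_sum, Finset.mul_sum, ← Finset.sum_add_distrib, ← Finset.sum_add_distrib]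
      refine Finset.sum_congr rfl fun x _ => ?_
      rw [hgg]
      unfold U3
      ring
    rw [e2]
    have hG1 : (0 : ℝ) ≤ (PPW.G1 G : ℝ) := Nat.cast_nonneg _
    have y1 := mul_le_mul_of_nonneg_left w1 hG1
    have y3 := mul_le_mul_of_nonneg_left w3 hgp
    have hP : 0 ≤ C2 * (E * (ν * 2 ^ i)) := by positivity
    have z1 := mul_le_mul_of_nonneg_left m1 hP
    have z2 := mul_le_mul_of_nonneg_left m2 hP
    have q1 : (PPW.G1 G : ℝ) * (C2 * (E * (8 * (ν * 2 ^ i / (G : ℝ) ^ 4)))) =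
        8 * (C2 * (E * (ν * 2 ^ i)) * ((PPW.G1 G : ℝ) / (G : ℝ) ^ 4)) := by ring
    have q2 : C2 * (E * (4 * (ν * 2 ^ i / (G : ℝ) ^ 2))) =
        4 * (C2 * (E * (ν * 2 ^ i)) * (1 / (G : ℝ) ^ 2)) := by ring
    have q3 : gg * (C2 * (E * (3 * (ν * 2 ^ i / (G : ℝ))))) =
        3 * (C2 * (E * (ν * 2 ^ i)) * (gg / G)) := by ring
    rw [q1] at y1
    rw [q2] at w2
    rw [q3] at y3
    have q4 : 15 * C2 * (E * (2 ^ i * (gg / G))) * ν =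
        15 * (C2 * (E * (ν * 2 ^ i)) * (gg / G)) := by ring
    rw [q4]
    linarith
  have e0 : ∑ b ∈ B, JB b.2 * U3 G b.1 i b.2 =
      ∑ a ∈ B.image Prod.fst, ∑ b ∈ B with b.1 = a, JB b.2 * U3 G b.1 i b.2 :=
    (Finset.sum_fiberwise_of_maps_to (fun b hb => Finset.mem_image_of_mem _ hb) _).symm
  rw [e0]
  have hA := k1 i δ1 hδ1 (B.image Prod.fst) (by
    intro a ha
    obtain ⟨b, hb, hba⟩ := Finset.mem_image.mp ha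
    have hh := hB b hb
    rw [hba] at hh
    exact ⟨hh.1.a1, hh.1.a2, hh.1.a3, hh.2.1⟩)
  have hP : 0 ≤ 15 * C2 * (E * (2 ^ i * (gg / G))) := by positivity
  calc _ ≤ ∑ a ∈ B.image Prod.fst, 15 * C2 * (E * (2 ^ i * (gg / G))) * nu3 i a :=
        Finset.sum_le_sum key
    _ = 15 * C2 * (E * (2 ^ i * (gg / G))) * ∑ a ∈ B.image Prod.fst, nu3 i a := by
        rw [Finset.mul_sum]
    _ ≤ 15 * C2 * (E * (2 ^ i * (gg / G))) * (C1 * δ1 ^ (1 / 4 : ℝ)) :=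
        mul_le_mul_of_nonneg_left hA hP
    _ = _ := by rw [hE]; ring

end Pool.Agent.PPF
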